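import Pool.Agent.helper22.EC.Defs

/-!
# MP_00de39_al (project EC): module LE, separability by permutations
-/

set_option autoImplicit false

namespace Pool.Agent.helper22.EC

open FreeGroup

section LE

/-- the cosets of the nonempty suffixes -/
def LE_sfx {α : Type} (H : Subgroup (FreeGroup α)) : List (α × Bool) → List (FreeGroup α ⧸ H)
  | [] => []
  | y :: q => ((mk (y :: q) : FreeGroup α) : FreeGroup α ⧸ H) :: LE_sfx H q

theorem LE_sfx_length {α : Type} (H : Subgroup (FreeGroup α)) (L : List (α × Bool)) :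
    (LE_sfx H L).length = L.length := by
  induction L with
  | nil => rfl
  | cons y q ih => simp only [LE_sfx, List.length_cons, ih]

theorem LE_sfx_mem {α : Type} (H : Subgroup (FreeGroup α)) (p : List (α × Bool))
    (y : α × Bool) (q : List (α × Bool)) :
    ((mk (y :: q) : FreeGroup α) : FreeGroup α ⧸ H) ∈ LE_sfx H (p ++ y :: q) := by
  induction p with
  | nil => exact List.mem_cons_self
  | cons z p ih => exact List.mem_cons_of_mem _ ih

theorem LE_perm {M : ℕ} (s : Finset (Fin M)) (f : Fin M → Fin M) (hf : Set.InjOn f s) :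
    ∃ σ : Equiv.Perm (Fin M), ∀ i ∈ s, σ i = f i := by
  classical
  obtain ⟨g, hg⟩ := Finset.exists_equiv_extend_of_card_eq (α := Fin M) (t := Finset.univ)
    (by simp) (s := s) (f := f) (Finset.subset_univ _) hf
  refine ⟨g.trans (Equiv.subtypeUnivEquiv (fun x => Finset.mem_univ x)), ?_⟩
  intro i hi
  exact hg i hi

theorem lerf {n : ℕ} (us : List (FreeGroup (Fin n))) (w : FreeGroup (Fin n)) (M : ℕ)
    (hM : (us.map FreeGroup.norm).sum + FreeGroup.norm w < M)
    (hw : w ∉ Subgroup.closure {g | g ∈ us}) :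
    ∃ (σ : Fin n → Equiv.Perm (Fin M)) (o : Fin M), o.val = 0 ∧
      (∀ u ∈ us, FreeGroup.lift σ u o = o) ∧ FreeGroup.lift σ w o ≠ o := by
  classical
  set H := Subgroup.closure {g | g ∈ us} with hH
  set b : FreeGroup (Fin n) ⧸ H := ((1 : FreeGroup (Fin n)) : FreeGroup (Fin n) ⧸ H) with hb
  set V : Finset (FreeGroup (Fin n) ⧸ H) :=
    insert b ((w :: us).flatMap fun u => LE_sfx H u.toWord).toFinset with hV
  have hcard : V.card ≤ M := by
    have h1 : ((w :: us).flatMap fun u => LE_sfx H u.toWord).toFinset.card ≤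
        (us.map FreeGroup.norm).sum + FreeGroup.norm w := by
      refine (List.toFinset_card_le _).trans ?_
      rw [List.length_flatMap, List.map_cons, List.sum_cons, add_comm, LE_sfx_length]
      apply Nat.add_le_add_right
      apply le_of_eq
      congr 1
      apply List.map_congr_left
      intro u _
      rw [LE_sfx_length]
      rfl
    have h2 := Finset.card_insert_le b ((w :: us).flatMap fun u => LE_sfx H u.toWord).toFinset
    rw [← hV] at h2
    omega
  have hsuf : ∀ u ∈ w :: us, ∀ p q, u.toWord = p ++ q →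
      ((mk q : FreeGroup (Fin n)) : FreeGroup (Fin n) ⧸ H) ∈ V := by
    intro u hu p q h
    rw [hV, Finset.mem_insert]
    rcases q with _ | ⟨y, q⟩
    · left; rfl
    · right
      rw [List.mem_toFinset, List.mem_flatMap]
      exact ⟨u, hu, by rw [h]; exact LE_sfx_mem H p y q⟩
  -- the embedding
  have hM0 : 0 < M := by omega
  set o : Fin M := ⟨0, hM0⟩ with ho
  obtain ⟨E, hE, hEb⟩ : ∃ E : FreeGroup (Fin n) ⧸ H → Fin M, Set.InjOn E V ∧ E b = o := by
    obtain ⟨E0⟩ : Nonempty (V ↪ Fin M) := by
      apply Function.Embedding.nonempty_of_card_le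
      rw [Fintype.card_coe, Fintype.card_fin]
      exact hcard
    have hbV : b ∈ V := Finset.mem_insert_self _ _
    refine ⟨fun c => if h : c ∈ V then Equiv.swap (E0 ⟨b, hbV⟩) o (E0 ⟨c, h⟩) else o, ?_, ?_⟩
    · intro c hc c' hc' h
      rw [Finset.mem_coe] at hc hc'
      simp only [hc, hc', dif_pos, EmbeddingLike.apply_eq_iff_eq, Subtype.mk.injEq] at h
      exact h
    · simp only [hbV, dif_pos, Equiv.swap_apply_left]
  -- the permutations
  have hperm : ∀ x : Fin n, ∃ σ : Equiv.Perm (Fin M),
      ∀ c, c ∈ V → (of x • c) ∈ V → σ (E c) = E (of x • c) := by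
    intro x
    set W : Finset (FreeGroup (Fin n) ⧸ H) := V.filter fun c => of x • c ∈ V with hW
    have hne : Nonempty (FreeGroup (Fin n) ⧸ H) := ⟨b⟩
    have hinv : ∀ c ∈ V, Function.invFunOn E V (E c) = c := by
      intro c hc
      exact hE.leftInvOn_invFunOn hc
    obtain ⟨σ, hσ⟩ := LE_perm (W.image E) (fun j => E (of x • Function.invFunOn E V j)) (by
      intro i hi j hj hij
      rw [Finset.coe_image] at hi hj
      obtain ⟨c, hc, rfl⟩ := hi
      obtain ⟨c', hc', rfl⟩ := hj
      rw [hW, Finset.coe_filter] at hc hc'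
      simp only at hij
      rw [hinv c hc.1, hinv c' hc'.1] at hij
      have h1 := hE hc.2 hc'.2 hij
      rw [MulAction.injective (of x) h1])
    refine ⟨σ, fun c hc hxc => ?_⟩
    rw [hσ (E c) (Finset.mem_image_of_mem _ (by rw [hW, Finset.mem_filter]; exact ⟨hc, hxc⟩))]
    rw [hinv c hc]
  choose σ hσ using hperm
  have main : ∀ u ∈ w :: us, ∀ q p, u.toWord = p ++ q →
      FreeGroup.lift σ (mk q) o = E ((mk q : FreeGroup (Fin n)) : FreeGroup (Fin n) ⧸ H) := by
    intro u hu q
    induction q with
    | nil =>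
      intro p _
      have h1 : (mk ([] : List (Fin n × Bool))) = 1 := rfl
      rw [h1, _root_.map_one, Equiv.Perm.one_apply]
      exact hEb.symm
    | cons y q ih =>
      intro p h
      have h1 := ih (p ++ [y]) (by rw [h]; simp)
      have h2 := hsuf u hu (p ++ [y]) q (by rw [h]; simp)
      have h3 := hsuf u hu p (y :: q) h
      have h4 : (mk (y :: q) : FreeGroup (Fin n)) = mk [y] * mk q := by
        rw [mul_mk]; rfl
      rw [h4, _root_.map_mul, Equiv.Perm.mul_apply, h1]
      rw [h4] at h3
      obtain ⟨x, c⟩ := y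
      cases c
      · have h5 : (mk [(x, false)] : FreeGroup (Fin n)) = (of x)⁻¹ := by
          simp [of, inv_mk, invRev]
        rw [h5, _root_.map_inv, FreeGroup.lift_apply_of, Equiv.Perm.inv_eq_iff_eq]
        rw [h5] at h3
        have h6 := hσ x (((of x)⁻¹ * mk q : FreeGroup (Fin n)) : FreeGroup (Fin n) ⧸ H) h3
        have h7 : (of x : FreeGroup (Fin n)) •
            (((of x)⁻¹ * mk q : FreeGroup (Fin n)) : FreeGroup (Fin n) ⧸ H) =
            ((mk q : FreeGroup (Fin n)) : FreeGroup (Fin n) ⧸ H) := by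
          show ((of x * ((of x)⁻¹ * mk q) : FreeGroup (Fin n)) : FreeGroup (Fin n) ⧸ H) = _
          rw [mul_inv_cancel_left]
        rw [h7] at h6
        exact (h6 h2).symm
      · have h5 : (mk [(x, true)] : FreeGroup (Fin n)) = of x := rfl
        rw [h5, FreeGroup.lift_apply_of]
        rw [h5] at h3
        exact hσ x _ h2 h3
  have main' : ∀ u ∈ w :: us, FreeGroup.lift σ u o =
      E ((u : FreeGroup (Fin n)) : FreeGroup (Fin n) ⧸ H) := by
    intro u hu
    have := main u hu u.toWord [] (by simp)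
    rwa [mk_toWord] at this
  refine ⟨σ, o, rfl, ?_, ?_⟩
  · intro u hu
    rw [main' u (List.mem_cons_of_mem _ hu)]
    have h1 : ((u : FreeGroup (Fin n)) : FreeGroup (Fin n) ⧸ H) = b := by
      have h3 : u ∈ H := Subgroup.subset_closure hu
      rw [hb, eq_comm, QuotientGroup.eq]
      simpa using h3
    rw [h1, hEb]
  · rw [main' w List.mem_cons_self]
    intro h
    rw [← hEb] at h
    have h2 := hsuf w List.mem_cons_self [] w.toWord rfl
    rw [mk_toWord] at h2
    have h1 := hE h2 (Finset.mem_insert_self _ _) h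
    rw [hb, eq_comm, QuotientGroup.eq] at h1
    apply hw
    simpa using h1

end LE

end Pool.Agent.helper22.EC
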