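import Pool.Agent.helper34.EC.CO

/-!
# MP_00de39_al (project EC): module BA, finitely many states
-/

set_option autoImplicit false
set_option linter.unusedSectionVars false

namespace Pool.Agent.helper22.EC

open FreeGroup

section BA0

/-! ### short paths -/

/-- paths of length `n` -/
def BA_path {X : Type*} (r : X → X → Prop) : ℕ → X → X → Prop
  | 0, x, y => x = y
  | n + 1, x, y => ∃ z, BA_path r n x z ∧ r z y

theorem BA_path_of_reach {X : Type*} {r : X → X → Prop} {b v : X}
    (h : Relation.ReflTransGen r b v) : ∃ n, BA_path r n b v := by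
  induction h with
  | refl => exact ⟨0, rfl⟩
  | tail _ h2 ih =>
    obtain ⟨n, hn⟩ := ih
    exact ⟨n + 1, _, hn, h2⟩

theorem BA_path_seq {X : Type*} {r : X → X → Prop} {b : X} (n : ℕ) :
    ∀ v, BA_path r n b v → ∃ f : ℕ → X, f 0 = b ∧ f n = v ∧ ∀ i < n, r (f i) (f (i + 1)) := by
  induction n with
  | zero =>
    intro v h
    exact ⟨fun _ => b, rfl, h, by simp⟩
  | succ n ih =>
    rintro v ⟨z, hz, hzv⟩
    obtain ⟨f, h0, hn, hf⟩ := ih z hz
    classical
    refine ⟨fun i => if i ≤ n then f i else v, ?_, ?_, ?_⟩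
    · simp [h0]
    · simp
    · intro i hi
      by_cases h1 : i + 1 ≤ n
      · simp only [h1, if_true, (by omega : i ≤ n)]
        exact hf i (by omega)
      · have h2 : i = n := by omega
        subst h2
        simp only [le_refl, if_true, h1, if_false]
        rw [hn]
        exact hzv

theorem BA_short {X : Type*} {r : X → X → Prop} {b v : X} (C : Set X) (hC : C.Finite)
    (hb : b ∈ C) (hr : ∀ x y, r x y → y ∈ C) (h : Relation.ReflTransGen r b v) :
    ∃ n, n + 1 ≤ C.ncard ∧ BA_path r n b v := by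
  classical
  have hex := BA_path_of_reach h
  set n := Nat.find hex with hn
  have hpath := Nat.find_spec hex
  rw [← hn] at hpath
  obtain ⟨f, h0, hfn, hf⟩ := BA_path_seq n v hpath
  refine ⟨n, ?_, hpath⟩
  -- distance of `f i`
  have hcont : ∀ i j m, BA_path r m b (f i) → i + j ≤ n → BA_path r (m + j) b (f (i + j)) := by
    intro i j m hm
    induction j with
    | zero => intro _; exact hm
    | succ j ih =>
      intro hj
      exact ⟨f (i + j), ih (by omega), hf _ (by omega)⟩
  have hd : ∀ i ≤ n, ∀ m, BA_path r m b (f i) → i ≤ m := by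
    intro i hi m hm
    have h1 := hcont i (n - i) m hm (by omega)
    rw [show i + (n - i) = n by omega, hfn] at h1
    have h2 := Nat.find_min' hex h1
    rw [← hn] at h2
    omega
  have hpi : ∀ i ≤ n, BA_path r i b (f i) := by
    intro i hi
    have h1 := hcont 0 i 0 (by rw [h0]; rfl) (by omega)
    simpa using h1
  have hinj : Set.InjOn f (Finset.range (n + 1) : Set ℕ) := by
    intro i hi j hj hij
    simp only [Finset.coe_range, Set.mem_Iio] at hi hj
    have h1 := hd i (by omega) j (by rw [hij]; exact hpi j (by omega))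
    have h2 := hd j (by omega) i (by rw [← hij]; exact hpi i (by omega))
    omega
  have hmem : ∀ i ∈ Finset.range (n + 1), f i ∈ hC.toFinset := by
    intro i hi
    rw [Set.Finite.mem_toFinset]
    rcases Nat.eq_zero_or_pos i with h1 | h1
    · rw [h1, h0]; exact hb
    · have h2 := hf (i - 1) (by simp only [Finset.mem_range] at hi; omega)
      rw [show i - 1 + 1 = i by omega] at h2
      exact hr _ _ h2
  have h3 := Finset.card_le_card_of_injOn f hmem hinj
  rw [Finset.card_range] at h3
  rw [Set.ncard_eq_toFinset_card C hC]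
  exact h3

end BA0

section BA

variable {α : Type} [DecidableEq α]

/-! ### core vertices -/

/-- the core vertices -/
def BA_C (K : Subgroup (FreeGroup α)) : Set (FreeGroup α ⧸ K) := {v | (Dv K v).Nontrivial}

theorem BA_C_finite [Fintype α] (K : Subgroup (FreeGroup α)) (hK : K.FG) : (BA_C K).Finite := by
  have h : BA_C K ⊆ ⋃ y : α × Bool, edg K y := by
    intro v hv
    obtain ⟨y, hy⟩ := (show (Dv K v).Nontrivial from hv).nonempty
    exact Set.mem_iUnion.2 ⟨y, hy, hv⟩
  exact (Set.finite_iUnion fun y => edg_finite K hK y).subset h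

theorem BA_C_card [Fintype α] (K : Subgroup (FreeGroup α)) (hK : K.FG) :
    (BA_C K).ncard ≤ EE K := by
  classical
  have hfin := BA_C_finite K hK
  set Cf := hfin.toFinset with hCf
  have h1 : ∑ y : α × Bool, (edg K y).ncard = 2 * EE K := by
    rw [Fintype.sum_prod_type]
    simp only [Fintype.sum_bool]
    rw [Finset.sum_add_distrib]
    have : ∀ a : α, (edg K (a, false)).ncard = (edg K (a, true)).ncard :=
      fun a => edg_nb K (a, true)
    rw [Finset.sum_congr rfl fun a _ => this a]
    unfold EE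
    ring
  have h2 : ∀ y : α × Bool, (edg K y).ncard = (Finset.filter (fun v => y ∈ Dv K v) Cf).card := by
    intro y
    rw [← Set.ncard_coe_finset]
    congr 1
    ext v
    simp only [Finset.coe_filter, hCf, Set.Finite.mem_toFinset]
    constructor
    · rintro ⟨ha, hb⟩; exact ⟨hb, ha⟩
    · rintro ⟨ha, hb⟩; exact ⟨hb, ha⟩
  have h3 : ∑ y : α × Bool, (Finset.filter (fun v => y ∈ Dv K v) Cf).card =
      ∑ v ∈ Cf, (Finset.filter (fun y => y ∈ Dv K v) Finset.univ).card := by
    simp only [Finset.card_filter]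
    exact Finset.sum_comm
  have h4 : ∀ v ∈ Cf, 2 ≤ (Finset.filter (fun y => y ∈ Dv K v) Finset.univ).card := by
    intro v hv
    rw [hCf, Set.Finite.mem_toFinset] at hv
    obtain ⟨y, hy, z, hz, hyz⟩ := hv
    exact Finset.one_lt_card.2 ⟨y, by simp [hy], z, by simp [hz], hyz⟩
  have h5 : Cf.card * 2 ≤ 2 * EE K := by
    rw [← h1, Finset.sum_congr rfl fun y _ => h2 y, h3, ← smul_eq_mul]
    exact Finset.card_nsmul_le_sum _ _ _ h4
  rw [Set.ncard_eq_toFinset_card _ hfin, ← hCf]
  omega

/-! ### generation by a ball -/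

theorem BA_norm_lt (y : α × Bool) : FreeGroup.norm (lt y) = 1 := by
  unfold FreeGroup.norm
  rw [CO_lt_toWord]
  rfl

theorem BA_fix (K : Subgroup (FreeGroup α)) (g h : FreeGroup α)
    (e : g⁻¹ • ((1 : FreeGroup α) : FreeGroup α ⧸ K) = h⁻¹ • ((1 : FreeGroup α) : FreeGroup α ⧸ K)) :
    g * h⁻¹ ∈ K := by
  have h1 : ((g⁻¹ * 1 : FreeGroup α) : FreeGroup α ⧸ K) = ((h⁻¹ * 1 : FreeGroup α) : FreeGroup α ⧸ K) := e
  rw [QuotientGroup.eq] at h1
  simpa using h1

theorem gen_ball [Fintype α] (K : Subgroup (FreeGroup α)) (hn : (D K).Nontrivial) (hK : K.FG) :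
    K = Subgroup.closure {g | g ∈ K ∧ FreeGroup.norm g ≤ 2 * EE K + 1} := by
  set b : FreeGroup α ⧸ K := ((1 : FreeGroup α) : FreeGroup α ⧸ K) with hb
  set Bl : Set (FreeGroup α) := {g | g ∈ K ∧ FreeGroup.norm g ≤ 2 * EE K + 1} with hBl
  let r : FreeGroup α ⧸ K → FreeGroup α ⧸ K → Prop := fun v w =>
    w ∈ BA_C K ∧ ∃ y : α × Bool, w = (lt y)⁻¹ • v
  have hbC : b ∈ BA_C K := by
    show (Dv K b).Nontrivial
    rw [hb, Dv_coe, inv_one, cj_one]
    exact hn
  have hshort : ∀ v, Relation.ReflTransGen r b v →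
      ∃ g : FreeGroup α, FreeGroup.norm g ≤ EE K ∧ v = g⁻¹ • b := by
    intro v hv
    obtain ⟨n, hnC, hp⟩ := BA_short (BA_C K) (BA_C_finite K hK) hbC (fun x y h => h.1) hv
    have key : ∀ n v, BA_path r n b v → ∃ g : FreeGroup α, FreeGroup.norm g ≤ n ∧ v = g⁻¹ • b := by
      intro n
      induction n with
      | zero =>
        intro v hv
        refine ⟨1, by simp, ?_⟩
        rw [inv_one, one_smul]
        exact hv.symm
      | succ n ih =>
        rintro v ⟨z, hz, -, y, hy⟩
        obtain ⟨g, hg1, hg2⟩ := ih z hz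
        refine ⟨g * lt y, ?_, ?_⟩
        · refine (FreeGroup.norm_mul_le _ _).trans ?_
          rw [BA_norm_lt]
          omega
        · rw [hy, hg2, mul_inv_rev, mul_smul]
    obtain ⟨g, hg1, hg2⟩ := key n v hp
    refine ⟨g, ?_, hg2⟩
    have := BA_C_card K hK
    omega
  apply le_antisymm
  · intro k hk
    have main : ∀ p : List (α × Bool), p <+: k.toWord →
        Relation.ReflTransGen r b ((mk p)⁻¹ • b) ∧
        ∀ g, FreeGroup.norm g ≤ EE K → g⁻¹ • b = (mk p)⁻¹ • b →
          mk p * g⁻¹ ∈ Subgroup.closure Bl := by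
      intro p
      induction p using List.reverseRecOn with
      | nil =>
        intro _
        have h1 : (mk ([] : List (α × Bool))) = 1 := rfl
        rw [h1, inv_one, one_smul]
        refine ⟨Relation.ReflTransGen.refl, ?_⟩
        intro g hg hgb
        rw [one_mul]
        refine Subgroup.inv_mem _ (Subgroup.subset_closure ⟨?_, by omega⟩)
        have := BA_fix K g 1 (by rw [inv_one, one_smul]; exact hgb)
        simpa using this
      | append_singleton p y ih =>
        intro hp
        obtain ⟨q, hq⟩ := hp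
        have hpk : p <+: k.toWord := ⟨[y] ++ q, by rw [← hq]; simp⟩
        obtain ⟨ih1, ih2⟩ := ih hpk
        have hvert : (mk (p ++ [y]))⁻¹ • b = (lt y)⁻¹ • ((mk p)⁻¹ • b) := by
          rw [CO_mk_append, mul_inv_rev, mul_smul]
          rfl
        constructor
        · refine ih1.tail ⟨?_, y, hvert⟩
          rcases q with _ | ⟨z, q⟩
          · have h1 : p ++ [y] = k.toWord := by rw [← hq]; simp
            rw [h1, mk_toWord]
            have h2 : k⁻¹ • b = b := by
              show ((k⁻¹ * 1 : FreeGroup α) : FreeGroup α ⧸ K) = _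
              rw [hb, QuotientGroup.eq]
              simpa using hk
            rw [h2]
            exact hbC
          · have h1 := (hull_next K hn k hk (p ++ [y]) q z hq.symm).2
            show (Dv K _).Nontrivial
            have h2 : (mk (p ++ [y]))⁻¹ • b =
                (((mk (p ++ [y]))⁻¹ : FreeGroup α) : FreeGroup α ⧸ K) := by
              show (((mk (p ++ [y]))⁻¹ * 1 : FreeGroup α) : FreeGroup α ⧸ K) = _
              rw [mul_one]
            rw [h2, Dv_coe, inv_inv]
            exact h1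
        · intro g hg hgb
          obtain ⟨g', hg1', hg2'⟩ := hshort _ ih1
          have h1 := ih2 g' hg1' hg2'.symm
          have h2 : g' * lt y * g⁻¹ ∈ Bl := by
            refine ⟨?_, ?_⟩
            · apply BA_fix
              rw [hgb, hvert, hg2', mul_inv_rev, mul_smul]
            · have h3 := FreeGroup.norm_mul_le (g' * lt y) g⁻¹
              have h4 := FreeGroup.norm_mul_le g' (lt y)
              rw [BA_norm_lt] at h4
              rw [norm_inv_eq] at h3
              omega
          have h5 : mk (p ++ [y]) * g⁻¹ = (mk p * g'⁻¹) * (g' * lt y * g⁻¹) := by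
            rw [CO_mk_append]
            have : (mk [y]) = lt y := rfl
            rw [this]
            group
          rw [h5]
          exact Subgroup.mul_mem _ h1 (Subgroup.subset_closure h2)
    have h1 := (main k.toWord (List.prefix_refl _)).2 1 (by simp) (by
      rw [mk_toWord, inv_one, one_smul]
      show _ = ((k⁻¹ * 1 : FreeGroup α) : FreeGroup α ⧸ K)
      rw [hb, QuotientGroup.eq]
      simpa using hk)
    rw [mk_toWord, inv_one, mul_one] at h1
    exact h1
  · rw [Subgroup.closure_le]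
    intro g hg
    exact hg.1

/-! ### the number of states -/

/-- bound for the number of states -/
def nst (m N : ℕ) : ℕ := 2 ^ ((2 * m + 1) ^ (2 * N + 1))

/-- the code of a word of length at most `R` -/
def BA_code (R : ℕ) (g : FreeGroup α) : Fin R → Option (α × Bool) := fun i => g.toWord[i.val]?

theorem BA_code_inj (R : ℕ) (g h : FreeGroup α) (hg : FreeGroup.norm g ≤ R)
    (hh : FreeGroup.norm h ≤ R) (e : BA_code R g = BA_code R h) : g = h := by
  apply toWord_injective
  apply List.ext_getElem?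
  intro i
  unfold FreeGroup.norm at hg hh
  by_cases hi : i < R
  · exact congrFun e ⟨i, hi⟩
  · rw [List.getElem?_eq_none (by omega), List.getElem?_eq_none (by omega)]

theorem BA_gen_ball_le [Fintype α] (N : ℕ) (K : Subgroup (FreeGroup α)) (hK : K ∈ St N) :
    K = Subgroup.closure {g | g ∈ K ∧ FreeGroup.norm g ≤ 2 * N + 1} := by
  obtain ⟨h1, h2, h3⟩ := hK
  apply le_antisymm
  · conv_lhs => rw [gen_ball K h1 h2]
    apply Subgroup.closure_mono
    rintro g ⟨hg1, hg2⟩
    exact ⟨hg1, by omega⟩
  · rw [Subgroup.closure_le]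
    intro g hg
    exact hg.1

/-- the finite set of short elements -/
def BA_sig (N : ℕ) (K : Subgroup (FreeGroup α)) : Set (Fin (2 * N + 1) → Option (α × Bool)) :=
  {c | ∃ g ∈ K, FreeGroup.norm g ≤ 2 * N + 1 ∧ c = BA_code (2 * N + 1) g}

theorem BA_sig_injOn [Fintype α] (N : ℕ) : Set.InjOn (BA_sig (α := α) N) (St N) := by
  intro K hK K' hK' h
  have key : ∀ K K' : Subgroup (FreeGroup α), BA_sig N K = BA_sig N K' →
      ∀ g, g ∈ K ∧ FreeGroup.norm g ≤ 2 * N + 1 → g ∈ K' ∧ FreeGroup.norm g ≤ 2 * N + 1 := by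
    rintro K K' h g ⟨hg1, hg2⟩
    have h1 : BA_code (2 * N + 1) g ∈ BA_sig N K := ⟨g, hg1, hg2, rfl⟩
    rw [h] at h1
    obtain ⟨g', hg1', hg2', hg3'⟩ := h1
    rw [BA_code_inj _ _ _ hg2 hg2' hg3']
    exact ⟨hg1', hg2'⟩
  rw [BA_gen_ball_le N K hK, BA_gen_ball_le N K' hK']
  congr 1
  ext g
  exact ⟨key K K' h g, key K' K h.symm g⟩

theorem BA_St_finite [Fintype α] (N : ℕ) : (St N : Set (Subgroup (FreeGroup α))).Finite :=
  Set.Finite.of_finite_image (Set.toFinite _) (BA_sig_injOn N)

theorem BA_St_card [Fintype α] (N : ℕ) :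
    (St N : Set (Subgroup (FreeGroup α))).ncard ≤ nst (Fintype.card α) N := by
  classical
  rw [← (BA_sig_injOn N).ncard_image]
  refine (Set.ncard_le_ncard (Set.subset_univ _)).trans ?_
  rw [Set.ncard_univ, Nat.card_eq_fintype_card]
  rw [Fintype.card_set, Fintype.card_fun, Fintype.card_option, Fintype.card_prod,
    Fintype.card_bool, Fintype.card_fin]
  unfold nst
  rw [mul_comm (Fintype.card α) 2]

/-! ### composition of steps -/

theorem BA_Bd_norm (B : ℕ) (f : FreeGroup α →* FreeGroup α)
    (hf : ∀ x, FreeGroup.norm (f (of x)) ≤ B) (L : List (α × Bool)) :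
    FreeGroup.norm (f (mk L)) ≤ B * L.length := by
  induction L with
  | nil =>
    have h1 : (mk ([] : List (α × Bool))) = 1 := rfl
    rw [h1, _root_.map_one, FreeGroup.norm_one]
    exact Nat.zero_le _
  | cons l L ih =>
    rw [CO_mk_cons, _root_.map_mul]
    refine (FreeGroup.norm_mul_le _ _).trans ?_
    have h1 : FreeGroup.norm (f (lt l)) ≤ B := by
      obtain ⟨a, b⟩ := l
      cases b
      · have : lt (a, false) = (of a)⁻¹ := by
          simp [lt, of, inv_mk, invRev]
        rw [this, _root_.map_inv, norm_inv_eq]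
        exact hf a
      · exact hf a
    rw [List.length_cons]
    nlinarith

theorem BA_Bd_comp (B C : ℕ) (φ ψ : FreeGroup α ≃* FreeGroup α) (h1 : Bd B φ) (h2 : Bd C ψ) :
    Bd (B * C) (ψ.trans φ) := by
  intro x
  constructor
  · have h3 := BA_Bd_norm B φ.toMonoidHom (fun x => (h1 x).1) (ψ (of x)).toWord
    rw [mk_toWord] at h3
    have h4 := (h2 x).1
    calc FreeGroup.norm ((ψ.trans φ) (of x)) ≤ B * (ψ (of x)).toWord.length := h3
      _ ≤ B * C := Nat.mul_le_mul_left _ h4
  · have h3 := BA_Bd_norm C ψ.symm.toMonoidHom (fun x => (h2 x).2) (φ.symm (of x)).toWord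
    rw [mk_toWord] at h3
    have h4 := (h1 x).2
    calc FreeGroup.norm ((ψ.trans φ).symm (of x)) ≤ C * (φ.symm (of x)).toWord.length := h3
      _ ≤ C * B := Nat.mul_le_mul_left _ h4
      _ = B * C := mul_comm _ _

theorem BA_Bd_mono {B C : ℕ} (h : B ≤ C) {φ : FreeGroup α ≃* FreeGroup α} (h1 : Bd B φ) :
    Bd C φ := fun x => ⟨(h1 x).1.trans h, (h1 x).2.trans h⟩

theorem BA_path_comp [Fintype α] (N : ℕ) (H : Subgroup (FreeGroup α)) (n : ℕ) :
    ∀ H1, BA_path (Stp N) n H H1 → ∃ φ : FreeGroup α ≃* FreeGroup α, Bd (9 ^ n) φ ∧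
      H1 = H.comap φ.toMonoidHom := by
  induction n with
  | zero =>
    intro H1 h
    refine ⟨MulEquiv.refl _, ?_, ?_⟩
    · intro x
      simp
    · have : H = H1 := h
      rw [← this]
      ext x
      rfl
  | succ n ih =>
    rintro H1 ⟨K, hK, -, ψ, hψ, hH1⟩
    obtain ⟨φ, hφ, hKφ⟩ := ih K hK
    refine ⟨ψ.trans φ, ?_, ?_⟩
    · rw [pow_succ]
      exact BA_Bd_comp _ _ φ ψ hφ hψ
    · rw [hH1, hKφ]
      ext x
      rfl

theorem reach [Fintype α] (N : ℕ) (H H1 : Subgroup (FreeGroup α)) (hH : H ∈ St N)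
    (h : Relation.ReflTransGen (Stp N) H H1) :
    ∃ φ : FreeGroup α ≃* FreeGroup α, Bd (9 ^ nst (Fintype.card α) N) φ ∧
      H1 = H.comap φ.toMonoidHom := by
  obtain ⟨n, hn, hp⟩ := BA_short (St N) (BA_St_finite N) hH (fun x y h => h.1) h
  obtain ⟨φ, h1, h2⟩ := BA_path_comp N H n H1 hp
  refine ⟨φ, BA_Bd_mono ?_ h1, h2⟩
  apply Nat.pow_le_pow_right (by norm_num)
  have := BA_St_card (α := α) N
  omega

end BA

end Pool.Agent.helper22.EC
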