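import Pool.Agent.helper71.EC.DC

/-!
# MP_00de39_al (project EC): modules CO1 and CO2, counting core edges
-/

set_option autoImplicit false
set_option linter.unusedSectionVars false

namespace Pool.Agent.helper22.EC

open FreeGroup

section CO

variable {α : Type} [DecidableEq α]

/-! ### words -/

theorem CO_nb_nb (y : α × Bool) : nb (nb y) = y := by
  simp [nb]

theorem CO_lt_toWord (y : α × Bool) : (lt y).toWord = [y] := by
  rw [lt, toWord_mk, reduce_singleton]

theorem CO_lt_nb (y : α × Bool) : lt (nb y) = (lt y)⁻¹ := by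
  simp [lt, nb, inv_mk, invRev]

theorem CO_rel_iff (a b : α × Bool) : (a.1 = b.1 → a.2 = b.2) ↔ a ≠ nb b := by
  obtain ⟨a1, a2⟩ := a
  obtain ⟨b1, b2⟩ := b
  simp only [nb, ne_eq, Prod.mk.injEq, not_and]
  cases a2 <;> cases b2 <;> simp

theorem CO_isReduced_append (L M : List (α × Bool)) :
    IsReduced (L ++ M) ↔ IsReduced L ∧ IsReduced M ∧ ∀ z ∈ L.getLast?, ∀ w ∈ M.head?, z ≠ nb w := by
  unfold FreeGroup.IsReduced
  rw [List.isChain_append]
  simp only [CO_rel_iff]

theorem CO_mul_toWord (v k : FreeGroup α) (h : IsReduced (v.toWord ++ k.toWord)) :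
    (v * k).toWord = v.toWord ++ k.toWord := by
  rw [toWord_mul, h.reduce_eq]

theorem CO_mk_cons (l : α × Bool) (L : List (α × Bool)) : mk (l :: L) = lt l * mk L := by
  rw [lt, mul_mk]; rfl

theorem CO_mk_append (L M : List (α × Bool)) : mk (L ++ M) = mk L * mk M := by
  rw [mul_mk]

/-- right multiplication by a letter does not change the first letter -/
theorem CO_head_letter (x : FreeGroup α) (l : α × Bool) (hx : 2 ≤ x.toWord.length) :
    (x * lt l).toWord.head? = x.toWord.head? := by
  rcases List.eq_nil_or_concat x.toWord with h | ⟨t, m, h⟩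
  · rw [h] at hx
    simp at hx
  · rw [List.concat_eq_append] at h
    have htne : t ≠ [] := by
      rintro rfl
      rw [h] at hx
      simp at hx
    have hred : IsReduced (t ++ [m]) := by rw [← h]; exact isReduced_toWord
    by_cases hml : m = nb l
    · have h1 : x * lt l = mk t := by
        rw [← mk_toWord (x := x), h, CO_mk_append]
        have : mk [m] = (lt l)⁻¹ := by rw [hml, ← CO_lt_nb]; rfl
        rw [this, inv_mul_cancel_right]
      rw [h1, toWord_mk, h, List.head?_append_of_ne_nil _ htne]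
      rw [((CO_isReduced_append t [m]).1 hred).1.reduce_eq]
    · have h1 : (x * lt l).toWord = x.toWord ++ [l] := by
        rw [CO_mul_toWord, CO_lt_toWord]
        rw [CO_lt_toWord, CO_isReduced_append]
        refine ⟨isReduced_toWord, FreeGroup.IsReduced.singleton, ?_⟩
        intro z hz w hw
        rw [h] at hz
        simp only [List.getLast?_append, List.getLast?_singleton, Option.mem_def,
          Option.some_or, Option.some.injEq] at hz
        simp only [List.head?_cons, Option.mem_def, Option.some.injEq] at hw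
        rw [← hz, ← hw]
        exact hml
      rw [h1, List.head?_append_of_ne_nil]
      rw [h]
      simp

theorem CO_head (L : List (α × Bool)) : ∀ x : FreeGroup α, L.length < x.toWord.length →
    (x * mk L).toWord.head? = x.toWord.head? := by
  induction L with
  | nil =>
    intro x _
    have : (mk ([] : List (α × Bool))) = 1 := rfl
    rw [this, mul_one]
  | cons l L ih =>
    intro x hx
    rw [List.length_cons] at hx
    rw [CO_mk_cons, ← mul_assoc, ih, CO_head_letter x l (by omega)]
    have h1 : FreeGroup.norm x ≤ FreeGroup.norm (x * lt l) + FreeGroup.norm (lt l)⁻¹ := by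
      have := norm_mul_le (x * lt l) (lt l)⁻¹
      rwa [mul_inv_cancel_right] at this
    rw [norm_inv_eq] at h1
    unfold FreeGroup.norm at h1
    rw [CO_lt_toWord] at h1
    simp only [List.length_singleton] at h1
    omega

/-! ### the action on the vertices -/

variable {H : Subgroup (FreeGroup α)}

theorem CO_Dv_smul (H : Subgroup (FreeGroup α)) (v : FreeGroup α ⧸ H) (g : FreeGroup α) :
    Dv H (g⁻¹ • v) = D (cj (MulAction.stabilizer (FreeGroup α) v) g) := by
  unfold Dv
  congr 1
  ext x
  show x • g⁻¹ • v = g⁻¹ • v ↔ (g * x * g⁻¹) • v = v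
  constructor
  · intro h
    rw [mul_smul, mul_smul, h, smul_inv_smul]
  · intro h
    conv_rhs => rw [← h]
    rw [mul_smul, mul_smul, inv_smul_smul]

theorem CO_edg_smul [Fintype α] (H : Subgroup (FreeGroup α)) (y : α × Bool) (v : FreeGroup α ⧸ H)
    (hv : v ∈ edg H y) : (lt y)⁻¹ • v ∈ edg H (nb y) := by
  obtain ⟨h1, h2⟩ := hv
  unfold Dv at h1 h2
  set K := MulAction.stabilizer (FreeGroup α) v with hK
  have h3 : nb y ∈ D (cj K (lt y)) := by
    rw [D_step, cj_cj, CO_nb_nb, CO_lt_nb, mul_inv_cancel, cj_one]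
    obtain ⟨z, hz, hzy⟩ := h2.exists_ne y
    exact ⟨z, hzy, hz⟩
  obtain ⟨z, hz1, hz2⟩ := (D_step K y).1 h1
  refine ⟨?_, ?_⟩
  · rw [CO_Dv_smul]; exact h3
  · rw [CO_Dv_smul]; exact ⟨nb y, h3, z, hz2, fun h => hz1 h.symm⟩

theorem CO_edg_nb_eq [Fintype α] (H : Subgroup (FreeGroup α)) (y : α × Bool) :
    edg H (nb y) = (fun v => (lt y)⁻¹ • v) '' edg H y := by
  ext w
  constructor
  · intro hw
    have h := CO_edg_smul H (nb y) w hw
    rw [CO_nb_nb, CO_lt_nb, inv_inv] at h
    exact ⟨lt y • w, h, by simp⟩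
  · rintro ⟨v, hv, rfl⟩
    exact CO_edg_smul H y v hv

theorem edg_nb [Fintype α] (H : Subgroup (FreeGroup α)) (y : α × Bool) :
    (edg H (nb y)).ncard = (edg H y).ncard := by
  rw [CO_edg_nb_eq]
  exact Set.ncard_image_of_injective _ (MulAction.injective _)

/-! ### conjugation -/

theorem CO_mem_cj (K : Subgroup (FreeGroup α)) (g x : FreeGroup α) :
    x ∈ cj K g ↔ g * x * g⁻¹ ∈ K := Iff.rfl

theorem EE_cj [Fintype α] (H : Subgroup (FreeGroup α)) (g : FreeGroup α) :
    EE (cj H g) = EE H := by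
  unfold EE
  refine Finset.sum_congr rfl fun a _ => ?_
  let f : FreeGroup α ⧸ H → FreeGroup α ⧸ (cj H g) :=
    Quotient.map' (fun x => x * g) (by
      intro x x' h
      rw [QuotientGroup.leftRel_apply] at h ⊢
      rw [CO_mem_cj]
      convert h using 1
      group)
  have hf : ∀ x : FreeGroup α, f (x : FreeGroup α ⧸ H) = ((x * g : FreeGroup α) : FreeGroup α ⧸ (cj H g)) :=
    fun x => rfl
  have hinj : Function.Injective f := by
    intro v w
    obtain ⟨x, rfl⟩ := QuotientGroup.mk_surjective v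
    obtain ⟨x', rfl⟩ := QuotientGroup.mk_surjective w
    intro h
    rw [hf, hf, QuotientGroup.eq, CO_mem_cj] at h
    rw [QuotientGroup.eq]
    convert h using 1
    group
  have hDv : ∀ x : FreeGroup α, Dv (cj H g) ((x * g : FreeGroup α) : FreeGroup α ⧸ (cj H g)) =
      Dv H (x : FreeGroup α ⧸ H) := by
    intro x
    rw [Dv_coe, Dv_coe, cj_cj]
    congr 2
    group
  have himg : edg (cj H g) (a, true) = f '' edg H (a, true) := by
    ext w
    obtain ⟨x, rfl⟩ := QuotientGroup.mk_surjective w
    have hx : x = (x * g⁻¹) * g := by group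
    rw [hx]
    constructor
    · rintro ⟨h1, h2⟩
      rw [hDv] at h1 h2
      exact ⟨_, ⟨h1, h2⟩, hf _⟩
    · rintro ⟨v, ⟨h1, h2⟩, h3⟩
      rw [← hf] at h3
      have h4 := hinj h3
      rw [h4] at h1 h2
      unfold edg
      rw [← hDv] at h1 h2
      exact ⟨h1, h2⟩
  rw [himg]
  exact Set.ncard_image_of_injective _ hinj

/-! ### traversed edges -/

/-- the word `L` read from the vertex `v` uses only edges of `T` -/
def CO_path (T : Set ((FreeGroup α ⧸ H) × (α × Bool))) :
    FreeGroup α ⧸ H → List (α × Bool) → Prop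
  | _, [] => True
  | v, y :: L => (v, y) ∈ T ∧ CO_path T ((lt y)⁻¹ • v) L

theorem CO_path_append (T : Set ((FreeGroup α ⧸ H) × (α × Bool))) (L M : List (α × Bool)) :
    ∀ v, CO_path T v (L ++ M) ↔ CO_path T v L ∧ CO_path T ((mk L)⁻¹ • v) M := by
  induction L with
  | nil =>
    intro v
    have : (mk ([] : List (α × Bool))) = 1 := rfl
    rw [this]
    simp [CO_path]
  | cons y L ih =>
    intro v
    rw [List.cons_append]
    simp only [CO_path]
    rw [ih, CO_mk_cons, mul_inv_rev, mul_smul, and_assoc]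

theorem CO_path_red (T : Set ((FreeGroup α ⧸ H) × (α × Bool))) (v : FreeGroup α ⧸ H)
    {L M : List (α × Bool)} (h : Red L M) : CO_path T v L → CO_path T v M := by
  induction h with
  | refl => exact id
  | tail _ hstep ih =>
    intro hL
    have h1 := ih hL
    clear ih hL
    obtain @⟨L1, L2, x, b⟩ := hstep
    rw [CO_path_append] at h1 ⊢
    refine ⟨h1.1, ?_⟩
    have h2 := h1.2
    simp only [CO_path] at h2
    have h3 := h2.2.2
    have h4 : lt (x, !b) = (lt (x, b))⁻¹ := CO_lt_nb (x, b)
    rw [h4, inv_inv, smul_inv_smul] at h3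
    exact h3

theorem CO_path_inv (T : Set ((FreeGroup α ⧸ H) × (α × Bool)))
    (hT : ∀ v y, (v, y) ∈ T → ((lt y)⁻¹ • v, nb y) ∈ T) (L : List (α × Bool)) :
    ∀ v, CO_path T v L → CO_path T ((mk L)⁻¹ • v) (invRev L) := by
  induction L with
  | nil =>
    intro v _
    simp [CO_path]
  | cons y L ih =>
    intro v hv
    simp only [CO_path] at hv
    have h1 : invRev (y :: L) = invRev L ++ [nb y] := by
      simp [invRev, nb]
    rw [h1, CO_path_append, CO_mk_cons, mul_inv_rev, mul_smul]
    refine ⟨ih _ hv.2, ?_⟩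
    rw [← inv_mk, inv_inv, smul_inv_smul]
    simp only [CO_path, and_true]
    exact hT _ _ hv.1

theorem CO_path_iff (T : Set ((FreeGroup α ⧸ H) × (α × Bool))) (L : List (α × Bool)) :
    ∀ v, CO_path T v L ↔ ∀ p y q, L = p ++ y :: q → ((mk p)⁻¹ • v, y) ∈ T := by
  induction L with
  | nil =>
    intro v
    simp [CO_path]
  | cons z L ih =>
    intro v
    simp only [CO_path]
    rw [ih]
    constructor
    · rintro ⟨h1, h2⟩ p y q h
      rcases p with _ | ⟨z', p⟩
      · have : (mk ([] : List (α × Bool))) = 1 := rfl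
        rw [this, inv_one, one_smul]
        simp only [List.nil_append, List.cons.injEq] at h
        rw [← h.1]
        exact h1
      · simp only [List.cons_append, List.cons.injEq] at h
        rw [← h.1, CO_mk_cons, mul_inv_rev, mul_smul]
        exact h2 p y q h.2
    · intro h
      refine ⟨?_, ?_⟩
      · have := h [] z L rfl
        have h1 : (mk ([] : List (α × Bool))) = 1 := rfl
        rw [h1, inv_one, one_smul] at this
        exact this
      · intro p y q hL
        have := h (z :: p) y q (by rw [hL]; rfl)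
        rw [CO_mk_cons, mul_inv_rev, mul_smul] at this
        exact this

/-- the edges traversed by the reduced words of the list -/
def CO_trav (H : Subgroup (FreeGroup α)) (ws : List (FreeGroup α)) :
    Set ((FreeGroup α ⧸ H) × (α × Bool)) :=
  {e | ∃ w ∈ ws, ∃ p q, (w.toWord = p ++ e.2 :: q ∧
      e.1 = (mk p)⁻¹ • ((1 : FreeGroup α) : FreeGroup α ⧸ H)) ∨
    (w.toWord = p ++ nb e.2 :: q ∧
      e.1 = (mk (p ++ [nb e.2]))⁻¹ • ((1 : FreeGroup α) : FreeGroup α ⧸ H))}

theorem CO_trav_symm (H : Subgroup (FreeGroup α)) (ws : List (FreeGroup α))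
    (v : FreeGroup α ⧸ H) (y : α × Bool) (h : (v, y) ∈ CO_trav H ws) :
    ((lt y)⁻¹ • v, nb y) ∈ CO_trav H ws := by
  obtain ⟨w, hw, p, q, ⟨h1, h2⟩ | ⟨h1, h2⟩⟩ := h
  · refine ⟨w, hw, p, q, Or.inr ⟨?_, ?_⟩⟩
    · show w.toWord = p ++ nb (nb y) :: q
      rw [CO_nb_nb]; exact h1
    · show (lt y)⁻¹ • v = (mk (p ++ [nb (nb y)]))⁻¹ • _
      have h3 : v = _ := h2
      rw [CO_nb_nb, CO_mk_append, mul_inv_rev, mul_smul, h3]
      rfl
  · refine ⟨w, hw, p, q, Or.inl ⟨h1, ?_⟩⟩
    show (lt y)⁻¹ • v = (mk p)⁻¹ • _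
    have h3 : v = (mk (p ++ [nb y]))⁻¹ • ((1 : FreeGroup α) : FreeGroup α ⧸ H) := h2
    have h4 : mk [nb y] = (lt y)⁻¹ := by rw [← CO_lt_nb]; rfl
    rw [h3, CO_mk_append, mul_inv_rev, mul_smul, h4, inv_inv, inv_smul_smul]

theorem CO_trav_path (ws : List (FreeGroup α)) (k : FreeGroup α)
    (hk : k ∈ Subgroup.closure {g | g ∈ ws}) :
    CO_path (CO_trav (Subgroup.closure {g | g ∈ ws}) ws)
      ((1 : FreeGroup α) : FreeGroup α ⧸ (Subgroup.closure {g | g ∈ ws})) k.toWord := by
  set H := Subgroup.closure {g | g ∈ ws} with hH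
  set T := CO_trav H ws with hT
  have hfix : ∀ k ∈ H, k⁻¹ • ((1 : FreeGroup α) : FreeGroup α ⧸ H) =
      ((1 : FreeGroup α) : FreeGroup α ⧸ H) := by
    intro k hk
    show ((k⁻¹ * 1 : FreeGroup α) : FreeGroup α ⧸ H) = _
    rw [QuotientGroup.eq]
    simpa using hk
  induction hk using Subgroup.closure_induction with
  | mem x hx =>
    rw [CO_path_iff]
    intro p y q h
    exact ⟨x, hx, p, q, Or.inl ⟨h, rfl⟩⟩
  | one => simp [CO_path]
  | mul x y hx hy ihx ihy =>
    rw [toWord_mul]
    refine CO_path_red T _ reduce.red ?_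
    rw [CO_path_append, mk_toWord, hfix x hx]
    exact ⟨ihx, ihy⟩
  | inv x hx ihx =>
    rw [toWord_inv]
    have := CO_path_inv T (CO_trav_symm H ws) _ _ ihx
    rw [mk_toWord, hfix x hx] at this
    exact this

theorem CO_finite_norm [Fintype α] (n : ℕ) : {x : FreeGroup α | x.toWord.length ≤ n}.Finite := by
  have h1 : {l : List (α × Bool) | l.length ≤ n}.Finite := List.finite_length_le _ n
  exact Set.Finite.preimage toWord_injective.injOn h1

/-- long elements in a direction -/
theorem CO_long [Fintype α] (K : Subgroup (FreeGroup α)) (y : α × Bool) (hy : y ∈ D K) (n : ℕ) :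
    ∃ k ∈ K, k.toWord.head? = some y ∧ n < k.toWord.length := by
  obtain ⟨k, hk⟩ := (Set.Infinite.sdiff hy (CO_finite_norm n)).nonempty
  refine ⟨k, hk.1.1, hk.1.2, ?_⟩
  have := hk.2
  simpa using this

theorem CO_edg_trav' [Fintype α] (H : Subgroup (FreeGroup α)) (ws : List (FreeGroup α))
    (hpath : ∀ k ∈ H, CO_path (CO_trav H ws) ((1 : FreeGroup α) : FreeGroup α ⧸ H) k.toWord)
    (y : α × Bool) (v : FreeGroup α ⧸ H) (hv : v ∈ edg H y) : (v, y) ∈ CO_trav H ws := by
  obtain ⟨x, rfl⟩ := QuotientGroup.mk_surjective v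
  obtain ⟨h1, h2⟩ := hv
  obtain ⟨z, hz, hzy⟩ := h2.exists_ne y
  rw [Dv_coe] at h1 hz
  set g := x⁻¹ with hg
  obtain ⟨k1, hk1, hk1y, hk1n⟩ := CO_long _ y h1 g.toWord.length
  obtain ⟨k2, hk2, hk2z, hk2n⟩ := CO_long _ z hz g.toWord.length
  -- the reduced word of `g k2⁻¹` ends with the inverse of `z`
  have hinvlen : g⁻¹.toWord.length = g.toWord.length := by
    rw [toWord_inv, invRev_length]
  have hA : (k2 * g⁻¹).toWord.head? = some z := by
    rw [← hk2z, ← mk_toWord (x := g⁻¹)]
    exact CO_head _ _ (by rw [hinvlen]; exact hk2n)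
  have hB : (k1 * g⁻¹).toWord.head? = some y := by
    rw [← hk1y, ← mk_toWord (x := g⁻¹)]
    exact CO_head _ _ (by rw [hinvlen]; exact hk1n)
  have hA' : (k2 * g⁻¹)⁻¹.toWord.getLast? = some (nb z) := by
    rw [toWord_inv]
    obtain ⟨t, ht⟩ := List.head?_eq_some_iff.1 hA
    rw [ht]
    simp [invRev, nb]
  set h := (k2 * g⁻¹)⁻¹ * (k1 * g⁻¹) with hh
  have hhH : h ∈ H := by
    have h3 : h = (g * k2 * g⁻¹)⁻¹ * (g * k1 * g⁻¹) := by
      rw [hh]; group
    rw [h3]
    exact H.mul_mem (H.inv_mem hk2) hk1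
  obtain ⟨t, ht⟩ := List.head?_eq_some_iff.1 hB
  have hword : h.toWord = (k2 * g⁻¹)⁻¹.toWord ++ y :: t := by
    rw [hh, CO_mul_toWord, ht]
    rw [CO_isReduced_append]
    refine ⟨isReduced_toWord, isReduced_toWord, ?_⟩
    intro a ha b hb hab
    rw [hA', Option.mem_def, Option.some.injEq] at ha
    rw [hB, Option.mem_def, Option.some.injEq] at hb
    rw [← ha, ← hb] at hab
    apply hzy
    rw [← CO_nb_nb z, hab, CO_nb_nb]
  have h5 := (CO_path_iff _ _ _).1 (hpath h hhH) _ y t hword
  rw [mk_toWord, inv_inv] at h5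
  have h6 : (k2 * g⁻¹) • (((1 : FreeGroup α) : FreeGroup α ⧸ H)) =
      ((x : FreeGroup α) : FreeGroup α ⧸ H) := by
    show ((k2 * g⁻¹ * 1 : FreeGroup α) : FreeGroup α ⧸ H) = _
    rw [QuotientGroup.eq, mul_one]
    have h7 := H.inv_mem hk2
    have h8 : (k2 * g⁻¹)⁻¹ * x = ((MulAut.conj g).toMonoidHom k2)⁻¹ := by
      show _ = (g * k2 * g⁻¹)⁻¹
      rw [hg]; group
    rw [h8]
    exact h7
  rw [h6] at h5
  exact h5

theorem CO_edg_trav [Fintype α] (ws : List (FreeGroup α)) (y : α × Bool)
    (v : FreeGroup α ⧸ (Subgroup.closure {g | g ∈ ws}))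
    (hv : v ∈ edg (Subgroup.closure {g | g ∈ ws}) y) :
    (v, y) ∈ CO_trav (Subgroup.closure {g | g ∈ ws}) ws :=
  CO_edg_trav' _ ws (fun k hk => CO_trav_path ws k hk) y v hv

/-- the list of the positively oriented edges traversed by a word -/
def CO_list (H : Subgroup (FreeGroup α)) : FreeGroup α ⧸ H → List (α × Bool) →
    List ((FreeGroup α ⧸ H) × α)
  | _, [] => []
  | v, y :: L => (if y.2 then v else (lt y)⁻¹ • v, y.1) :: CO_list H ((lt y)⁻¹ • v) L

theorem CO_list_length (H : Subgroup (FreeGroup α)) (L : List (α × Bool)) :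
    ∀ v, (CO_list H v L).length = L.length := by
  induction L with
  | nil => intro v; rfl
  | cons y L ih =>
    intro v
    simp only [CO_list, List.length_cons, ih]

theorem CO_list_mem (H : Subgroup (FreeGroup α)) (L : List (α × Bool)) :
    ∀ v p y q, L = p ++ y :: q →
      ((if y.2 then (mk p)⁻¹ • v else (mk (p ++ [y]))⁻¹ • v), y.1) ∈ CO_list H v L := by
  induction L with
  | nil =>
    intro v p y q h
    simp at h
  | cons z L ih =>
    intro v p y q h
    rcases p with _ | ⟨z', p⟩
    · simp only [List.nil_append, List.cons.injEq] at h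
      rw [← h.1]
      simp only [CO_list, List.nil_append]
      have h1 : (mk ([] : List (α × Bool))) = 1 := rfl
      rw [h1, inv_one, one_smul]
      exact List.mem_cons_self
    · simp only [List.cons_append, List.cons.injEq] at h
      have h2 := ih ((lt z)⁻¹ • v) p y q h.2
      simp only [CO_list]
      refine List.mem_cons_of_mem _ ?_
      rw [← h.1, List.cons_append, CO_mk_cons, CO_mk_cons, mul_inv_rev, mul_inv_rev, mul_smul,
        mul_smul]
      exact h2

theorem CO_trav_list (H : Subgroup (FreeGroup α)) (ws : List (FreeGroup α))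
    (v : FreeGroup α ⧸ H) (a : α) (h : (v, (a, true)) ∈ CO_trav H ws) :
    (v, a) ∈ ws.flatMap fun w => CO_list H ((1 : FreeGroup α) : FreeGroup α ⧸ H) w.toWord := by
  rw [List.mem_flatMap]
  obtain ⟨w, hw, p, q, ⟨h1, h2⟩ | ⟨h1, h2⟩⟩ := h
  · refine ⟨w, hw, ?_⟩
    have h3 := CO_list_mem H w.toWord ((1 : FreeGroup α) : FreeGroup α ⧸ H) p (a, true) q h1
    have h4 : v = _ := h2
    rw [h4]
    exact h3
  · refine ⟨w, hw, ?_⟩
    have h3 := CO_list_mem H w.toWord ((1 : FreeGroup α) : FreeGroup α ⧸ H) p (a, false) q h1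
    have h4 : v = _ := h2
    rw [h4]
    exact h3

theorem EE_le [Fintype α] (ws : List (FreeGroup α)) :
    EE (Subgroup.closure {g | g ∈ ws}) ≤ (ws.map FreeGroup.norm).sum := by
  classical
  set H := Subgroup.closure {g | g ∈ ws} with hH
  set Lst := ws.flatMap fun w => CO_list H ((1 : FreeGroup α) : FreeGroup α ⧸ H) w.toWord
    with hLst
  have hlen : Lst.length = (ws.map FreeGroup.norm).sum := by
    rw [hLst, List.length_flatMap]
    congr 1
    apply List.map_congr_left
    intro w _
    rw [CO_list_length]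
    rfl
  rw [← hlen]
  refine le_trans ?_ (List.toFinset_card_le Lst)
  rw [Finset.card_eq_sum_card_fiberwise (f := Prod.snd) (t := Finset.univ) (by simp)]
  unfold EE
  refine Finset.sum_le_sum fun a _ => ?_
  have hsub : edg H (a, true) ⊆
      ((({e ∈ Lst.toFinset | e.2 = a} : Finset _).image Prod.fst : Finset _) :
        Set (FreeGroup α ⧸ H)) := by
    intro v hv
    have h1 := CO_edg_trav ws (a, true) v hv
    have h2 := CO_trav_list H ws v a h1
    rw [Finset.coe_image]
    refine ⟨(v, a), ?_, rfl⟩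
    simp only [Finset.coe_filter, List.mem_toFinset, Set.mem_ofPred_eq, and_true]
    exact h2
  refine (Set.ncard_le_ncard hsub (Finset.finite_toSet _)).trans ?_
  rw [Set.ncard_coe_finset]
  exact Finset.card_image_le

theorem edg_finite [Fintype α] (H : Subgroup (FreeGroup α)) (hH : H.FG) (y : α × Bool) :
    (edg H y).Finite := by
  classical
  have key : ∀ a : α, (edg H (a, true)).Finite := by
    intro a
    obtain ⟨S, hS⟩ := hH
    have hS' : Subgroup.closure {g | g ∈ S.toList} = H := by
      rw [← hS]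
      congr 1
      ext g
      simp
    subst hS'
    set H := Subgroup.closure {g | g ∈ S.toList}
    have hsub : edg H (a, true) ⊆ (Prod.fst '' {e | e ∈ (S.toList.flatMap fun w =>
        CO_list H ((1 : FreeGroup α) : FreeGroup α ⧸ H) w.toWord)}) := by
      intro v hv
      have h1 := CO_edg_trav S.toList (a, true) v hv
      have h2 := CO_trav_list H S.toList v a h1
      exact ⟨(v, a), h2, rfl⟩
    exact Set.Finite.subset ((List.finite_toSet _).image _) hsub
  obtain ⟨a, b⟩ := y
  cases b
  · have h1 : edg H (nb (a, true)) = _ := CO_edg_nb_eq H (a, true)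
    have h2 : nb (a, true) = (a, false) := rfl
    rw [← h2, h1]
    exact (key a).image _
  · exact key a

/-! ### smaller free groups -/

theorem CO_map_toWord {β : Type} [DecidableEq β] (f : β → α) (hf : Function.Injective f)
    (g : FreeGroup β) :
    (FreeGroup.map f g).toWord = g.toWord.map (fun l => (f l.1, l.2)) := by
  conv_lhs => rw [← mk_toWord (x := g)]
  rw [map.mk, toWord_mk]
  apply FreeGroup.IsReduced.reduce_eq
  have h : IsReduced g.toWord := isReduced_toWord
  unfold FreeGroup.IsReduced at *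
  rw [List.isChain_map]
  exact h.imp fun a b h1 h2 => h1 (hf h2)

theorem CO_map_injective {β : Type} [DecidableEq β] (f : β → α) (hf : Function.Injective f) :
    Function.Injective (FreeGroup.map f) := by
  intro x y h
  have h1 := congrArg FreeGroup.toWord h
  rw [CO_map_toWord f hf, CO_map_toWord f hf] at h1
  apply toWord_injective
  refine List.map_injective_iff.2 ?_ h1
  rintro ⟨a1, a2⟩ ⟨b1, b2⟩ hab
  simp only [Prod.mk.injEq] at hab
  rw [hf hab.1, hab.2]

theorem CO_D_comap {β : Type} [DecidableEq β] (f : β → α) (hf : Function.Injective f)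
    (L : Subgroup (FreeGroup α)) (y : β × Bool) (hy : y ∈ D (L.comap (FreeGroup.map f))) :
    (f y.1, y.2) ∈ D L := by
  refine Set.Infinite.mono ?_ (Set.Infinite.image ((CO_map_injective f hf).injOn) hy)
  rintro _ ⟨x, ⟨hx1, hx2⟩, rfl⟩
  refine ⟨hx1, ?_⟩
  show (FreeGroup.map f x).toWord.head? = _
  rw [CO_map_toWord f hf, List.head?_map]
  have : x.toWord.head? = some y := hx2
  rw [this]
  rfl

theorem CO_D_range {β : Type} [DecidableEq β] (f : β → α) (hf : Function.Injective f)
    (K : Subgroup (FreeGroup α)) (hr : K ≤ (FreeGroup.map f).range) (w : α × Bool)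
    (hw : w ∈ D K) : ∃ y ∈ D (K.comap (FreeGroup.map f)), w = (f y.1, y.2) := by
  have hnon : ((K : Set (FreeGroup α)) ∩ U w).Nonempty := Set.Infinite.nonempty hw
  obtain ⟨x, hx1, hx2⟩ := hnon
  obtain ⟨g, rfl⟩ := hr hx1
  have h1 : (FreeGroup.map f g).toWord.head? = some w := hx2
  rw [CO_map_toWord f hf, List.head?_map, Option.map_eq_some_iff] at h1
  obtain ⟨y, -, hy2⟩ := h1
  refine ⟨y, ?_, hy2.symm⟩
  refine fun hfin => hw ?_
  refine (hfin.image (FreeGroup.map f)).subset ?_
  rintro z ⟨hz1, hz2⟩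
  obtain ⟨g', rfl⟩ := hr hz1
  refine ⟨g', ⟨hz1, ?_⟩, rfl⟩
  have h2 : (FreeGroup.map f g').toWord.head? = some w := hz2
  rw [CO_map_toWord f hf, List.head?_map, Option.map_eq_some_iff] at h2
  obtain ⟨y', hy1', hy2'⟩ := h2
  show g'.toWord.head? = some y
  rw [hy1']
  have h3 := hy2'.trans hy2.symm
  simp only [Prod.mk.injEq] at h3
  congr 1
  exact Prod.ext (hf h3.1) h3.2

/-- states inside a smaller free group -/
theorem St_emb [Fintype α] {β : Type} [DecidableEq β] [Fintype β] (f : β → α)
    (hf : Function.Injective f)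
    (N : ℕ) (K : Subgroup (FreeGroup α)) (hK : K ∈ St N) (hr : K ≤ (FreeGroup.map f).range) :
    K.comap (FreeGroup.map f) ∈ St N := by
  classical
  obtain ⟨hn, hfg, hN⟩ := hK
  have hinj := CO_map_injective f hf
  set φ := FreeGroup.map f with hφ
  refine ⟨?_, ?_, ?_⟩
  · obtain ⟨w, hw, w', hw', hne⟩ := hn
    obtain ⟨y, hy, hy2⟩ := CO_D_range f hf K hr w hw
    obtain ⟨y', hy', hy2'⟩ := CO_D_range f hf K hr w' hw'
    refine ⟨y, hy, y', hy', ?_⟩
    rintro rfl
    exact hne (hy2.trans hy2'.symm)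
  · have h1 : (K.comap φ).map φ = K := Subgroup.map_comap_eq_self hr
    have e := Subgroup.equivMapOfInjective (K.comap φ) φ hinj
    rw [h1] at e
    have h2 : Group.FG K := (Group.fg_iff_subgroup_fg K).2 hfg
    have h3 : Group.FG (K.comap φ) := Group.fg_of_surjective (f := e.symm.toMonoidHom)
      e.symm.surjective
    exact (Group.fg_iff_subgroup_fg _).1 h3
  · refine le_trans ?_ hN
    unfold EE
    have h1 : ∀ b : β, (edg (K.comap φ) (b, true)).ncard ≤ (edg K (f b, true)).ncard := by
      intro b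
      let F : FreeGroup β ⧸ (K.comap φ) → FreeGroup α ⧸ K :=
        Quotient.map' φ (by
          intro x x' h
          rw [QuotientGroup.leftRel_apply] at h ⊢
          rw [← _root_.map_inv, ← _root_.map_mul]
          exact h)
      have hF : ∀ x : FreeGroup β, F (x : FreeGroup β ⧸ (K.comap φ)) =
          ((φ x : FreeGroup α) : FreeGroup α ⧸ K) := fun x => rfl
      have hFinj : Function.Injective F := by
        intro v w
        obtain ⟨x, rfl⟩ := QuotientGroup.mk_surjective v
        obtain ⟨x', rfl⟩ := QuotientGroup.mk_surjective w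
        intro h
        rw [hF, hF, QuotientGroup.eq, ← _root_.map_inv, ← _root_.map_mul] at h
        rw [QuotientGroup.eq]
        exact h
      rw [← Set.ncard_image_of_injective _ hFinj]
      refine Set.ncard_le_ncard ?_ (edg_finite K hfg _)
      rintro _ ⟨v, ⟨hv1, hv2⟩, rfl⟩
      obtain ⟨x, rfl⟩ := QuotientGroup.mk_surjective v
      rw [Dv_coe] at hv1 hv2
      have h2 : cj (K.comap φ) x⁻¹ = (cj K (φ x)⁻¹).comap φ := by
        ext z
        rw [CO_mem_cj, Subgroup.mem_comap, Subgroup.mem_comap, CO_mem_cj]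
        simp only [_root_.map_mul, _root_.map_inv]
      rw [h2] at hv1 hv2
      rw [hF]
      unfold edg
      refine ⟨?_, ?_⟩
      · rw [Dv_coe]
        exact CO_D_comap f hf _ _ hv1
      · rw [Dv_coe]
        obtain ⟨y, hy, y', hy', hne⟩ := hv2
        refine ⟨_, CO_D_comap f hf _ _ hy, _, CO_D_comap f hf _ _ hy', ?_⟩
        intro h
        simp only [Prod.mk.injEq] at h
        exact hne (Prod.ext (hf h.1) h.2)
    refine (Finset.sum_le_sum fun b _ => h1 b).trans ?_
    rw [← Finset.sum_image (s := Finset.univ) (g := f) (f := fun a => (edg K (a, true)).ncard)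
      (fun x _ y _ h => hf h)]
    exact Finset.sum_le_sum_of_subset (Finset.subset_univ _)

end CO

end Pool.Agent.helper22.EC
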