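import Pool.Agent.helper34.EC.CO
import Pool.Agent.helper22.EC.Red

/-!
# MP_00de39_al (project EC): module CV, the cut vertex lemma

If a finitely generated subgroup `K` of a free group is contained in a proper free factor, then some
letter is not used by the core graph of `K`, or a Whitehead automorphism makes the core smaller.
The proof takes a set of group elements with the smallest coboundary in the Cayley tree.
-/

set_option autoImplicit false
set_option linter.unusedSectionVars false

namespace Pool.Agent.helper22.EC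

open FreeGroup Filter

section CV

variable {α : Type} [DecidableEq α]

/-! ### words -/

theorem CV_nb_nb (y : α × Bool) : nb (nb y) = y := by
  simp [nb]

theorem CV_rel_iff (a b : α × Bool) : (a.1 = b.1 → a.2 = b.2) ↔ a ≠ nb b := by
  obtain ⟨a1, a2⟩ := a
  obtain ⟨b1, b2⟩ := b
  simp only [nb, ne_eq, Prod.mk.injEq, not_and]
  cases a2 <;> cases b2 <;> simp

theorem CV_isReduced_snoc (L : List (α × Bool)) (y : α × Bool) :
    IsReduced (L ++ [y]) ↔ IsReduced L ∧ ∀ z ∈ L.getLast?, z ≠ nb y := by
  unfold FreeGroup.IsReduced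
  rw [List.isChain_append]
  simp only [List.isChain_singleton, List.head?_cons, Option.mem_def, Option.some.injEq,
    true_and, forall_eq', CV_rel_iff]

theorem CV_lt_toWord (y : α × Bool) : (lt y).toWord = [y] := by
  rw [lt, toWord_mk, reduce_singleton]

theorem CV_lt_nb (y : α × Bool) : lt (nb y) = (lt y)⁻¹ := by
  simp [lt, nb, inv_mk, invRev]

theorem CV_mul_toWord (v k : FreeGroup α) (h : IsReduced (v.toWord ++ k.toWord)) :
    (v * k).toWord = v.toWord ++ k.toWord := by
  rw [toWord_mul, h.reduce_eq]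

/-- the neighbour in the direction of `1` -/
def CV_par (g : FreeGroup α) : FreeGroup α := mk g.toWord.dropLast

theorem CV_par_toWord (g : FreeGroup α) : (CV_par g).toWord = g.toWord.dropLast := by
  unfold CV_par
  rw [toWord_mk]
  exact (red_part isReduced_toWord (List.dropLast_prefix _).isInfix).reduce_eq

theorem CV_par_one : CV_par (1 : FreeGroup α) = 1 := by
  apply toWord_injective
  rw [CV_par_toWord]
  simp

/-- `y` is a direction away from `1` at the vertex `v` -/
def CV_Out (v : FreeGroup α) (y : α × Bool) : Prop := IsReduced (v.toWord ++ [y])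

theorem CV_out_toWord {v : FreeGroup α} {y : α × Bool} (h : CV_Out v y) :
    (v * lt y).toWord = v.toWord ++ [y] := by
  have := CV_mul_toWord v (lt y) (by rw [CV_lt_toWord]; exact h)
  rw [this, CV_lt_toWord]

theorem CV_par_out {v : FreeGroup α} {y : α × Bool} (h : CV_Out v y) : CV_par (v * lt y) = v := by
  apply toWord_injective
  rw [CV_par_toWord, CV_out_toWord h]
  simp

theorem CV_decomp (g : FreeGroup α) (hg : g ≠ 1) :
    ∃ y, CV_Out (CV_par g) y ∧ g = CV_par g * lt y := by
  have hne : g.toWord ≠ [] := by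
    rw [Ne, toWord_eq_nil_iff]; exact hg
  refine ⟨g.toWord.getLast hne, ?_, ?_⟩
  · unfold CV_Out
    rw [CV_par_toWord, List.dropLast_append_getLast]
    exact isReduced_toWord
  · conv_lhs => rw [← mk_toWord (x := g), ← List.dropLast_append_getLast hne, ← mul_mk]
    rfl

/-- the coboundary of `V` in the Cayley tree -/
def CV_cob (V : Set (FreeGroup α)) : Set (FreeGroup α) := {g | ¬ (g ∈ V ↔ CV_par g ∈ V)}

theorem CV_cob_ne_one {V : Set (FreeGroup α)} {g : FreeGroup α} (hg : g ∈ CV_cob V) : g ≠ 1 := by
  rintro rfl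
  apply hg
  rw [CV_par_one]

/-- the properties of the sets of group elements -/
structure CV_Good (K : Subgroup (FreeGroup α)) (V : Set (FreeGroup α)) : Prop where
  inv : ∀ g, ∀ᶠ x in cofinite, (x ∈ V ↔ x * g ∈ V)
  inf : ∃ᶠ x in cofinite, x ∈ V
  cinf : ∃ᶠ x in cofinite, x ∉ V
  cl : ∀ g, (∀ᶠ x in cofinite, x ∈ cj K g → x ∈ V) ∨ (∀ᶠ x in cofinite, x ∈ cj K g → x ∉ V)

theorem CV_good_congr {K : Subgroup (FreeGroup α)} {V V' : Set (FreeGroup α)} (h : CV_Good K V)
    (hV : ∀ᶠ x in cofinite, (x ∈ V' ↔ x ∈ V)) : CV_Good K V' := by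
  refine ⟨fun g => ?_, ?_, ?_, fun g => ?_⟩
  · filter_upwards [h.inv g, hV, (mul_left_injective g).tendsto_cofinite.eventually hV]
      with x h1 h2 h3
    rw [h2, h1, ← h3]
  · exact (h.inf.and_eventually hV).mono fun x hx => hx.2.2 hx.1
  · exact (h.cinf.and_eventually hV).mono fun x hx => fun hc => hx.1 (hx.2.1 hc)
  · rcases h.cl g with h1 | h1
    · left
      filter_upwards [h1, hV] with x h2 h3 h4
      exact h3.2 (h2 h4)
    · right
      filter_upwards [h1, hV] with x h2 h3 h4 h5
      exact h2 h4 (h3.1 h5)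

theorem CV_cob_finite [Fintype α] {K : Subgroup (FreeGroup α)} {V : Set (FreeGroup α)}
    (h : CV_Good K V) : (CV_cob V).Finite := by
  have hsub : CV_cob V ⊆ ⋃ l : α × Bool, {g | ¬ (g ∈ V ↔ g * (lt l)⁻¹ ∈ V)} := by
    intro g hg
    obtain ⟨y, hy, hgy⟩ := CV_decomp g (CV_cob_ne_one hg)
    refine Set.mem_iUnion.2 ⟨y, ?_⟩
    intro h1
    apply hg
    rw [h1]
    have : g * (lt y)⁻¹ = CV_par g := by
      rw [mul_inv_eq_iff_eq_mul]
      exact hgy
    rw [this]
  refine Set.Finite.subset (Set.finite_iUnion fun l => ?_) hsub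
  have := h.inv (lt l)⁻¹
  exact this


/-! ### the letter `s` -/

theorem CV_inv_U [Fintype α] (y : α × Bool) (g : FreeGroup α) :
    ∀ᶠ x in cofinite, (x ∈ U y ↔ x * g ∈ U y) := by
  have key : ∀ l : α × Bool, ∀ᶠ x in cofinite, (x ∈ U y ↔ x * lt l ∈ U y) := by
    intro l
    have hfin : ({x : FreeGroup α | x = 1 ∨ ∃ m : α × Bool, x = lt m}).Finite := by
      have : {x : FreeGroup α | x = 1 ∨ ∃ m : α × Bool, x = lt m} =
          {1} ∪ Set.range (lt : α × Bool → FreeGroup α) := by
        ext x
        simp [eq_comm]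
      rw [this]
      exact (Set.finite_singleton _).union (Set.finite_range _)
    refine hfin.subset ?_
    intro x hx
    by_contra hc
    simp only [Set.mem_ofPred_eq, not_or, not_exists] at hc
    obtain ⟨hx1, hxm⟩ := hc
    apply hx
    obtain ⟨m, hm, hxeq⟩ := CV_decomp x hx1
    have hp1 : CV_par x ≠ 1 := by
      intro h1
      apply hxm m
      rw [hxeq, h1, one_mul]
    have hpw : (CV_par x).toWord ≠ [] := by
      rw [Ne, toWord_eq_nil_iff]; exact hp1
    have hxw : x.toWord = (CV_par x).toWord ++ [m] := by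
      conv_lhs => rw [hxeq]
      exact CV_out_toWord hm
    have hhd : x.toWord.head? = (CV_par x).toWord.head? := by
      rw [hxw, List.head?_append_of_ne_nil _ hpw]
    have hxne : x.toWord ≠ [] := by rw [hxw]; simp
    by_cases hml : m = nb l
    · have : x * lt l = CV_par x := by
        calc x * lt l = CV_par x * lt m * lt l := by rw [← hxeq]
          _ = CV_par x := by rw [hml, CV_lt_nb, inv_mul_cancel_right]
      show x.toWord.head? = some y ↔ (x * lt l).toWord.head? = some y
      rw [this, hhd]
    · have hout : CV_Out x l := by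
        unfold CV_Out
        rw [CV_isReduced_snoc]
        refine ⟨isReduced_toWord, ?_⟩
        intro z hz
        rw [hxw] at hz
        simp only [List.getLast?_append, List.getLast?_singleton, Option.mem_def] at hz
        have : m = z := by simpa using hz
        rw [← this]
        exact hml
      show x.toWord.head? = some y ↔ (x * lt l).toWord.head? = some y
      rw [CV_out_toWord hout, List.head?_append_of_ne_nil _ hxne]
  have hg : g = mk g.toWord := mk_toWord.symm
  rw [hg]
  generalize g.toWord = L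
  induction L with
  | nil => 
    have : (mk ([] : List (α × Bool))) = 1 := rfl
    rw [this]
    simp
  | cons l L ih =>
    have h1 : (mk (l :: L)) = lt l * mk L := by
      rw [lt, mul_mk]; rfl
    rw [h1]
    filter_upwards [key l, (mul_left_injective (lt l)).tendsto_cofinite.eventually ih] with x h2 h3
    rw [h2, h3, mul_assoc]

theorem CV_Sm_word (s : α) (k : FreeGroup α) (hk : k ∈ Sm s) : ∀ l ∈ k.toWord, l.1 ≠ s := by
  induction hk using Subgroup.closure_induction with
  | mem x hx =>
    obtain ⟨b, hb, rfl⟩ := hx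
    intro l hl
    rw [toWord_of] at hl
    simp only [List.mem_singleton] at hl
    rw [hl]
    exact hb
  | one => simp
  | mul x y hx hy ihx ihy =>
    intro l hl
    have := (toWord_mul_sublist x y).subset hl
    rcases List.mem_append.1 this with h | h
    · exact ihx l h
    · exact ihy l h
  | inv x hx ihx =>
    intro l hl
    rw [toWord_inv] at hl
    unfold invRev at hl
    simp only [List.mem_reverse, List.mem_map] at hl
    obtain ⟨m, hm, rfl⟩ := hl
    exact ihx m hm

theorem CV_mk_mem_Sm (s : α) (L : List (α × Bool)) (h : ∀ l ∈ L, l.1 ≠ s) : mk L ∈ Sm s := by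
  induction L with
  | nil => exact (Sm s).one_mem
  | cons l L ih =>
    have h1 : (mk (l :: L)) = lt l * mk L := by
      rw [lt, mul_mk]; rfl
    rw [h1]
    refine (Sm s).mul_mem ?_ (ih fun m hm => h m (List.mem_cons_of_mem _ hm))
    have hl : l.1 ≠ s := h l List.mem_cons_self
    obtain ⟨a, b⟩ := l
    cases b
    · have : lt (a, false) = (of a)⁻¹ := by
        simp [lt, of, inv_mk, invRev]
      rw [this]
      exact (Sm s).inv_mem (Subgroup.subset_closure ⟨a, hl, rfl⟩)
    · exact Subgroup.subset_closure ⟨a, hl, rfl⟩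

/-- conjugates of the small subgroup are on one side -/
theorem CV_cl_Sm (s : α) (h : FreeGroup α) :
    (∀ x, h * x * h⁻¹ ∈ Sm s → x ≠ 1 → x ∈ U (s, true)) ∨
    (∀ x, h * x * h⁻¹ ∈ Sm s → x ∉ U (s, true)) := by
  set p := h.toWord.takeWhile (fun l => decide (l.1 ≠ s)) with hp
  set q := h.toWord.dropWhile (fun l => decide (l.1 ≠ s)) with hq
  have hpq : p ++ q = h.toWord := List.takeWhile_append_dropWhile
  have hh : h = mk p * mk q := by
    rw [mul_mk, hpq, mk_toWord]
  have hpS : mk p ∈ Sm s := by
    apply CV_mk_mem_Sm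
    intro l hl
    have := List.mem_takeWhile_imp hl
    simpa using this
  have hqr : IsReduced q := by
    have h1 : IsReduced h.toWord := isReduced_toWord
    rw [← hpq] at h1
    exact red_part h1 (List.suffix_append p q).isInfix
  have hk : ∀ x, h * x * h⁻¹ ∈ Sm s → mk q * x * (mk q)⁻¹ ∈ Sm s := by
    intro x hx
    have : mk q * x * (mk q)⁻¹ = (mk p)⁻¹ * (h * x * h⁻¹) * mk p := by
      rw [hh]; group
    rw [this]
    exact (Sm s).mul_mem ((Sm s).mul_mem ((Sm s).inv_mem hpS) hx) hpS
  rcases hqc : q with _ | ⟨l, q'⟩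
  · right
    intro x hx hxU
    have h1 := hk x hx
    rw [hqc] at h1
    have h2 : x ∈ Sm s := by
      have : (mk ([] : List (α × Bool))) = 1 := rfl
      rw [this] at h1
      simpa using h1
    have h3 : (s, true) ∈ x.toWord := List.mem_of_head? hxU
    exact CV_Sm_word s x h2 _ h3 rfl
  · have hl : l.1 = s := by
      have h1 := List.head?_dropWhile_not (fun l : α × Bool => decide (l.1 ≠ s)) h.toWord
      rw [← hq, hqc] at h1
      simpa using h1
    have hword : ∀ x, h * x * h⁻¹ ∈ Sm s → x ≠ 1 →
        x.toWord.head? = (invRev q).head? := by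
      intro x hx hx1
      have h1 := hk x hx
      set k := mk q * x * (mk q)⁻¹ with hkdef
      have hk1 : k ≠ 1 := by
        intro hk1
        apply hx1
        rw [hkdef] at hk1
        have : x = (mk q)⁻¹ * 1 * mk q := by
          rw [← hk1]; group
        rw [this]; group
      have hxk : x = mk (invRev q ++ k.toWord ++ q) := by
        rw [← mul_mk, ← mul_mk, mk_toWord, ← inv_mk, hkdef]; group
      have hks : ∀ m ∈ k.toWord, m.1 ≠ s := CV_Sm_word s k h1
      have hkne : k.toWord ≠ [] := by
        rw [Ne, toWord_eq_nil_iff]; exact hk1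
      have hinv : IsReduced (invRev q) := by
        have h2 : IsReduced ((mk q)⁻¹).toWord := isReduced_toWord
        rw [toWord_inv, toWord_mk, hqr.reduce_eq] at h2
        exact h2
      have hred : IsReduced (invRev q ++ k.toWord ++ q) := by
        unfold FreeGroup.IsReduced at *
        rw [List.isChain_append, List.isChain_append]
        refine ⟨⟨hinv, isReduced_toWord, ?_⟩, hqr, ?_⟩
        · intro x hx y hy hxy
          exfalso
          rw [hqc] at hx
          have hx2 : x.1 = s := by
            simp only [invRev, List.map_cons, List.reverse_cons, List.getLast?_append,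
              List.getLast?_singleton, Option.mem_def, Option.some_or, Option.some.injEq] at hx
            rw [← hx]
            exact hl
          exact hks y (List.mem_of_head? hy) (hxy ▸ hx2)
        · intro x hx y hy hxy
          exfalso
          rw [hqc] at hy
          have hy2 : y.1 = s := by
            simp only [List.head?_cons, Option.mem_def, Option.some.injEq] at hy
            rw [← hy]
            exact hl
          have hx2 : x ∈ k.toWord := by
            rw [List.getLast?_append_of_ne_nil _ hkne] at hx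
            exact List.mem_of_getLast? hx
          exact hks x hx2 (hxy.trans hy2)
      rw [hxk, toWord_mk, hred.reduce_eq, List.append_assoc, List.head?_append_of_ne_nil]
      rw [hqc]
      simp [invRev]
    by_cases hc : (invRev q).head? = some (s, true)
    · left
      intro x hx hx1
      exact (hword x hx hx1).trans hc
    · right
      intro x hx hxU
      by_cases hx1 : x = 1
      · rw [hx1] at hxU
        simp [U] at hxU
      · apply hc
        rw [← hword x hx hx1]
        exact hxU

theorem CV_mem_cj (K : Subgroup (FreeGroup α)) (g x : FreeGroup α) :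
    x ∈ cj K g ↔ g * x * g⁻¹ ∈ K := Iff.rfl

theorem CV_exists_good [Fintype α] (K : Subgroup (FreeGroup α)) (hp : InPFF K) :
    ∃ V, CV_Good K V := by
  obtain ⟨ψ, s, hs⟩ := hp
  refine ⟨{x | ψ x ∈ U (s, true)}, ?_, ?_, ?_, ?_⟩
  · intro g
    have h := ψ.injective.tendsto_cofinite.eventually (CV_inv_U (s, true) (ψ g))
    filter_upwards [h] with x hx
    show ψ x ∈ U (s, true) ↔ ψ (x * g) ∈ U (s, true)
    rw [_root_.map_mul]
    exact hx
  · intro h
    have h2 := ψ.symm.injective.tendsto_cofinite.eventually h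
    have h3 : (U (s, true) : Set (FreeGroup α)).Finite := by
      refine Set.Finite.subset h2 ?_
      intro x hx hc
      apply hc
      show ψ (ψ.symm x) ∈ U (s, true)
      rw [MulEquiv.apply_symm_apply]
      exact hx
    refine Set.infinite_of_injective_forall_mem (f := fun n : ℕ => (of s : FreeGroup α) ^ (n + 1))
      ?_ ?_ h3
    · intro m n hmn
      have := congrArg FreeGroup.norm hmn
      simp only [norm_of_pow] at this
      omega
    · intro n
      show ((of s : FreeGroup α) ^ (n + 1)).toWord.head? = some (s, true)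
      rw [toWord_of_pow, List.replicate_succ, List.head?_cons]
  · intro h
    have h2 := ψ.symm.injective.tendsto_cofinite.eventually h
    have h3 : ((U (s, true))ᶜ : Set (FreeGroup α)).Finite := by
      refine Set.Finite.subset h2 ?_
      intro x hx hc
      apply hc
      show ψ (ψ.symm x) ∉ U (s, true)
      rw [MulEquiv.apply_symm_apply]
      exact hx
    refine Set.infinite_of_injective_forall_mem
      (f := fun n : ℕ => ((of s : FreeGroup α) ^ (n + 1))⁻¹) ?_ ?_ h3
    · intro m n hmn
      have := congrArg FreeGroup.norm hmn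
      simp only [norm_of_pow, norm_inv_eq] at this
      omega
    · intro n
      show ((of s : FreeGroup α) ^ (n + 1))⁻¹ ∉ U (s, true)
      intro hc
      have h4 : (s, true) ∈ (((of s : FreeGroup α) ^ (n + 1))⁻¹).toWord := List.mem_of_head? hc
      rw [toWord_inv, toWord_of_pow] at h4
      simp [invRev] at h4
  · intro g
    have h0 : ∀ x, x ∈ cj K g → ψ g * ψ x * (ψ g)⁻¹ ∈ Sm s := by
      intro x hx
      rw [CV_mem_cj] at hx
      have := hs (Subgroup.mem_map_of_mem ψ.toMonoidHom hx)
      simpa using this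
    rcases CV_cl_Sm s (ψ g) with h | h
    · left
      filter_upwards [eventually_cofinite_ne (1 : FreeGroup α)] with x hx1 hx
      refine h (ψ x) (h0 x hx) ?_
      intro hc
      apply hx1
      exact ψ.injective (by rw [hc, _root_.map_one])
    · right
      exact Eventually.of_forall fun x hx => h (ψ x) (h0 x hx)

/-! ### the minimal set -/

theorem CV_const {V : Set (FreeGroup α)} {v : FreeGroup α} {y : α × Bool} (hy : CV_Out v y)
    (hmax : ∀ c ∈ CV_cob V, FreeGroup.norm c ≤ v.toWord.length + 1) (t : List (α × Bool)) :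
    ∀ g : FreeGroup α, g.toWord = v.toWord ++ [y] ++ t → (g ∈ V ↔ v * lt y ∈ V) := by
  induction t using List.reverseRecOn with
  | nil =>
    intro g hg
    have : g = v * lt y := by
      apply toWord_injective
      rw [hg, CV_out_toWord hy]; simp
    rw [this]
  | append_singleton t l ih =>
    intro g hg
    have h1 : (CV_par g).toWord = v.toWord ++ [y] ++ t := by
      rw [CV_par_toWord, hg, ← List.append_assoc, List.dropLast_concat]
    rw [← ih _ h1]
    by_contra hc
    have h2 := hmax g hc
    unfold FreeGroup.norm at h2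
    rw [hg] at h2
    simp only [List.length_append, List.length_cons, List.length_nil] at h2
    omega

theorem CV_frequently_D {K : Subgroup (FreeGroup α)} {y : α × Bool} (h : y ∈ D K) :
    ∃ᶠ x in cofinite, x ∈ K ∧ x ∈ U y :=
  frequently_cofinite_iff_infinite.2 h

theorem CV_side {K : Subgroup (FreeGroup α)} {V : Set (FreeGroup α)} (hV : CV_Good K V)
    {v : FreeGroup α} (hmax : ∀ c ∈ CV_cob V, FreeGroup.norm c ≤ v.toWord.length + 1)
    (g : FreeGroup α) {y z : α × Bool} (hy : CV_Out v y) (hz : CV_Out v z)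
    (hyD : y ∈ D (cj K g)) (hzD : z ∈ D (cj K g)) : (v * lt y ∈ V ↔ v * lt z ∈ V) := by
  have h1 : ∀ᶠ k in cofinite, (v * k ∈ V ↔ v * k * v⁻¹ ∈ V) :=
    (mul_right_injective v).tendsto_cofinite.eventually (hV.inv v⁻¹)
  have h2 : ∀ y, CV_Out v y → ∀ k, k ∈ U y → (v * k ∈ V ↔ v * lt y ∈ V) := by
    intro y hy k hk
    obtain ⟨t, ht⟩ : ∃ t, k.toWord = y :: t := by
      have : k.toWord.head? = some y := hk
      exact List.head?_eq_some_iff.1 this
    apply CV_const hy hmax t
    rw [CV_mul_toWord, ht]
    · simp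
    · rw [ht]
      have h3 : IsReduced (y :: t) := by
        rw [← ht]; exact isReduced_toWord
      unfold CV_Out at hy
      have := hy.append_overlap (L₃ := t) h3 (by simp)
      simpa using this
  have hinj : Function.Injective (fun k : FreeGroup α => v * k * v⁻¹) := by
    intro a b hab
    simpa using hab
  have hmem : ∀ k, k ∈ cj K g → v * k * v⁻¹ ∈ cj K (g * v⁻¹) := by
    intro k hk
    rw [CV_mem_cj] at *
    convert hk using 1
    group
  rcases hV.cl (g * v⁻¹) with h | h
  · have h4 := hinj.tendsto_cofinite.eventually h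
    have h5 : ∀ y, CV_Out v y → y ∈ D (cj K g) → v * lt y ∈ V := by
      intro y hy hyD
      obtain ⟨k, ⟨hk1, hk2⟩, hk3, hk4⟩ :=
        ((CV_frequently_D hyD).and_eventually (h1.and h4)).exists
      rw [← h2 y hy k hk2, hk3]
      exact hk4 (hmem k hk1)
    exact iff_of_true (h5 y hy hyD) (h5 z hz hzD)
  · have h4 := hinj.tendsto_cofinite.eventually h
    have h5 : ∀ y, CV_Out v y → y ∈ D (cj K g) → v * lt y ∉ V := by
      intro y hy hyD
      obtain ⟨k, ⟨hk1, hk2⟩, hk3, hk4⟩ :=
        ((CV_frequently_D hyD).and_eventually (h1.and h4)).exists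
      rw [← h2 y hy k hk2, hk3]
      exact hk4 (hmem k hk1)
    exact iff_of_false (h5 y hy hyD) (h5 z hz hzD)

theorem CV_D_bot : D (⊥ : Subgroup (FreeGroup α)) = ∅ := by
  ext y
  simp only [Set.mem_empty_iff_false, iff_false]
  intro h
  apply h
  refine (Set.finite_singleton (1 : FreeGroup α)).subset ?_
  rintro x ⟨hx, -⟩
  simpa using hx

theorem CV_exists_ne (K : Subgroup (FreeGroup α)) (hn : (D K).Nontrivial) (hp : InPFF K) (s : α) :
    ∃ x, x ≠ s := by
  by_contra hc
  push Not at hc
  obtain ⟨ψ, s', hs⟩ := hp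
  have h1 : Sm s' = ⊥ := by
    unfold Sm
    have : (of '' {b : α | b ≠ s'}) = ∅ := by
      rw [Set.image_eq_empty]
      ext b
      simp only [Set.mem_ofPred_eq, Set.mem_empty_iff_false, iff_false, not_not]
      rw [hc b, hc s']
    rw [this, Subgroup.closure_empty]
  rw [h1, le_bot_iff] at hs
  have h2 : K = ⊥ := (Subgroup.map_eq_bot_iff_of_injective K ψ.injective).1 hs
  rw [h2, CV_D_bot] at hn
  exact Set.not_nontrivial_empty hn

theorem CV_partition [Fintype α] (K : Subgroup (FreeGroup α)) (hn : (D K).Nontrivial)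
    (hp : InPFF K) :
    ∃ P Q : Set (α × Bool), (∀ y, y ∈ P → y ∉ Q) ∧ P.Nonempty ∧ Q.Nonempty ∧
      (∀ g, ¬ ((D (cj K g) ∩ P).Nonempty ∧ (D (cj K g) ∩ Q).Nonempty)) ∧
      ((∀ y, y ∈ P ∨ y ∈ Q) ∨ ∃ a, a ∉ P ∧ a ∉ Q ∧ ∀ y, y ≠ a → y ∈ P ∨ y ∈ Q) := by
  classical
  -- the minimal set
  obtain ⟨V, hV, hmin⟩ : ∃ V, CV_Good K V ∧ ∀ V', CV_Good K V' →
      (CV_cob V).ncard ≤ (CV_cob V').ncard := by
    have hex : ∃ n, ∃ V, CV_Good K V ∧ (CV_cob V).ncard = n := by
      obtain ⟨V, hV⟩ := CV_exists_good K hp
      exact ⟨_, V, hV, rfl⟩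
    obtain ⟨V, hV, hVn⟩ := Nat.find_spec hex
    refine ⟨V, hV, fun V' hV' => ?_⟩
    rw [hVn]
    exact Nat.find_min' hex ⟨V', hV', rfl⟩
  have hfin := CV_cob_finite hV
  have hne : (CV_cob V).Nonempty := by
    by_contra hc
    rw [Set.not_nonempty_iff_eq_empty] at hc
    have h1 : ∀ n : ℕ, ∀ g : FreeGroup α, g.toWord.length = n → (g ∈ V ↔ (1 : FreeGroup α) ∈ V) := by
      intro n
      induction n with
      | zero =>
        intro g hg
        rw [List.length_eq_zero_iff, toWord_eq_nil_iff] at hg
        rw [hg]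
      | succ n ih =>
        intro g hg
        have h2 : g ∉ CV_cob V := by rw [hc]; simp
        have h3 : (g ∈ V ↔ CV_par g ∈ V) := by
          by_contra h; exact h2 h
        rw [h3]
        apply ih
        rw [CV_par_toWord, List.length_dropLast, hg]
        simp
    obtain ⟨x, hx⟩ := hV.inf.exists
    obtain ⟨y, hy⟩ := hV.cinf.exists
    exact hy ((h1 _ y rfl).2 ((h1 _ x rfl).1 hx))
  obtain ⟨c, hc, hcmax⟩ := Set.exists_max_image (CV_cob V) FreeGroup.norm hfin hne
  set v := CV_par c with hv
  obtain ⟨y0, hy0, hcy⟩ := CV_decomp c (CV_cob_ne_one hc)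
  rw [← hv] at hy0 hcy
  have hmax : ∀ c' ∈ CV_cob V, FreeGroup.norm c' ≤ v.toWord.length + 1 := by
    intro c' hc'
    refine (hcmax c' hc').trans ?_
    unfold FreeGroup.norm
    rw [hcy, CV_out_toWord hy0]
    simp
  have hBQ : ∀ y, CV_Out v y → (v * lt y ∈ CV_cob V ↔ ¬ (v * lt y ∈ V ↔ v ∈ V)) := by
    intro y hy
    show ¬ (_ ↔ CV_par (v * lt y) ∈ V) ↔ _
    rw [CV_par_out hy]
  refine ⟨{y | CV_Out v y ∧ v * lt y ∈ CV_cob V}, {y | CV_Out v y ∧ v * lt y ∉ CV_cob V},
    fun y hy hy' => hy'.2 hy.2, ⟨y0, hy0, hcy ▸ hc⟩, ?_, ?_, ?_⟩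
  · -- Q is nonempty
    by_contra hQ
    rw [Set.not_nonempty_iff_eq_empty] at hQ
    have hall : ∀ y, CV_Out v y → v * lt y ∈ CV_cob V := by
      intro y hy
      by_contra h
      have : y ∈ ({y | CV_Out v y ∧ v * lt y ∉ CV_cob V} : Set (α × Bool)) := ⟨hy, h⟩
      rw [hQ] at this
      exact this
    by_cases hv1 : v = 1
    · -- all elements except `1` are on the same side
      have h1 : ∀ g : FreeGroup α, g ≠ 1 → (g ∈ V ↔ ¬ (1 : FreeGroup α) ∈ V) := by
        intro g hg
        have hgw : g.toWord ≠ [] := by rw [Ne, toWord_eq_nil_iff]; exact hg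
        obtain ⟨y, t, ht⟩ := List.exists_cons_of_ne_nil hgw
        have hout : CV_Out v y := by
          unfold CV_Out
          rw [hv1]
          simp
        have h2 := CV_const hout hmax t g (by rw [ht, hv1]; simp)
        have h3 := (hBQ y hout).1 (hall y hout)
        rw [h2]
        rw [hv1] at h3 ⊢
        tauto
      obtain ⟨x, hx, hx1⟩ :=
        (hV.inf.and_eventually (eventually_cofinite_ne (1 : FreeGroup α))).exists
      obtain ⟨y, hy, hy1⟩ :=
        (hV.cinf.and_eventually (eventually_cofinite_ne (1 : FreeGroup α))).exists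
      exact hy ((h1 y hy1).2 ((h1 x hx1).1 hx))
    · -- flip `v`
      set V' : Set (FreeGroup α) := {g | g ∈ V ↔ g ≠ v} with hV'
      have hV'1 : ∀ g, g ≠ v → (g ∈ V' ↔ g ∈ V) := by
        intro g hg
        show (g ∈ V ↔ g ≠ v) ↔ _
        tauto
      have hV'2 : (v ∈ V' ↔ v ∉ V) := by
        show (v ∈ V ↔ v ≠ v) ↔ _
        tauto
      have hgood : CV_Good K V' := by
        refine CV_good_congr hV ?_
        filter_upwards [eventually_cofinite_ne v] with x hx
        exact hV'1 x hx
      -- two outgoing letters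
      obtain ⟨l, hl⟩ : ∃ l, v.toWord.getLast? = some l := by
        have : v.toWord ≠ [] := by rw [Ne, toWord_eq_nil_iff]; exact hv1
        exact ⟨_, List.getLast?_eq_some_getLast this⟩
      obtain ⟨x, hx⟩ := CV_exists_ne K hn hp l.1
      have hout : ∀ b, CV_Out v (x, b) := by
        intro b
        unfold CV_Out
        rw [CV_isReduced_snoc]
        refine ⟨isReduced_toWord, ?_⟩
        intro z hz hzb
        rw [hl, Option.mem_def, Option.some.injEq] at hz
        apply hx
        rw [hz, hzb]
        rfl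
      have hc1 := hall _ (hout true)
      have hc2 := hall _ (hout false)
      have hc12 : v * lt (x, true) ≠ v * lt (x, false) := by
        intro h
        have h2 := mul_left_cancel h
        have h3 := congrArg FreeGroup.toWord h2
        rw [CV_lt_toWord, CV_lt_toWord] at h3
        simp at h3
      have hsub : CV_cob V' ⊆ insert v (CV_cob V \ {v * lt (x, true), v * lt (x, false)}) := by
        intro g hg
        by_cases hgv : g = v
        · left; exact hgv
        · right
          have hg1 := CV_cob_ne_one hg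
          by_cases hpv : CV_par g = v
          · exfalso
            obtain ⟨y, hy, hgy⟩ := CV_decomp g hg1
            rw [hpv] at hy hgy
            have h1 := hall y hy
            rw [hBQ y hy] at h1
            apply hg
            rw [hV'1 g hgv, hpv, hV'2, hgy]
            tauto
          · have hgc : g ∈ CV_cob V := by
              intro h
              apply hg
              rw [hV'1 g hgv, hV'1 _ hpv, h]
            refine ⟨hgc, ?_⟩
            simp only [Set.mem_insert_iff, Set.mem_singleton_iff, not_or]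
            constructor
            · rintro rfl
              exact hpv (CV_par_out (hout true))
            · rintro rfl
              exact hpv (CV_par_out (hout false))
      have h1 := hmin V' hgood
      have h2 : (CV_cob V').ncard ≤
          (insert v (CV_cob V \ {v * lt (x, true), v * lt (x, false)})).ncard :=
        Set.ncard_le_ncard hsub ((hfin.sdiff).insert v)
      have h3 := Set.ncard_insert_le v (CV_cob V \ {v * lt (x, true), v * lt (x, false)})
      have h4 : (CV_cob V \ {v * lt (x, true), v * lt (x, false)}).ncard + 2 =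
          (CV_cob V).ncard := by
        rw [← Set.ncard_pair hc12]
        apply Set.ncard_sdiff_add_ncard_of_subset
        · intro z hz
          simp only [Set.mem_insert_iff, Set.mem_singleton_iff] at hz
          rcases hz with rfl | rfl
          · exact hc1
          · exact hc2
        · exact hfin
      omega
  · -- no vertex meets both
    rintro g ⟨⟨y, hyD, hy⟩, z, hzD, hz⟩
    have h1 := CV_side hV hmax g hy.1 hz.1 hyD hzD
    have h2 := (hBQ y hy.1).1 hy.2
    have h3 : v * lt z ∈ V ↔ v ∈ V := by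
      by_contra h
      exact hz.2 ((hBQ z hz.1).2 h)
    rw [h1, h3] at h2
    exact h2 Iff.rfl
  · by_cases hv1 : v = 1
    · left
      intro y
      have hout : CV_Out v y := by
        unfold CV_Out
        rw [hv1]
        simp
      by_cases h : v * lt y ∈ CV_cob V
      · exact Or.inl ⟨hout, h⟩
      · exact Or.inr ⟨hout, h⟩
    · right
      obtain ⟨l, hl⟩ : ∃ l, v.toWord.getLast? = some l := by
        have : v.toWord ≠ [] := by rw [Ne, toWord_eq_nil_iff]; exact hv1
        exact ⟨_, List.getLast?_eq_some_getLast this⟩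
      have hout : ∀ y, CV_Out v y ↔ y ≠ nb l := by
        intro y
        unfold CV_Out
        rw [CV_isReduced_snoc, hl]
        simp only [Option.mem_def, Option.some.injEq, forall_eq']
        constructor
        · rintro ⟨-, h⟩ rfl
          exact h (CV_nb_nb l).symm
        · intro h
          refine ⟨isReduced_toWord, ?_⟩
          intro h2
          apply h
          rw [h2, CV_nb_nb]
      refine ⟨nb l, ?_, ?_, ?_⟩
      · rintro ⟨h, -⟩
        exact (hout _).1 h rfl
      · rintro ⟨h, -⟩
        exact (hout _).1 h rfl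
      · intro y hy
        by_cases h : v * lt y ∈ CV_cob V
        · exact Or.inl ⟨(hout y).2 hy, h⟩
        · exact Or.inr ⟨(hout y).2 hy, h⟩

/-! ### the two cases -/

/-- the conclusion of the cut vertex lemma -/
def CV_concl [Fintype α] (K : Subgroup (FreeGroup α)) : Prop :=
    (∃ s : α, edg K (s, true) = ∅) ∨
    ∃ (A : Set (α × Bool)) (a : α × Bool), a ∈ A ∧ nb a ∉ A ∧
      (∀ v, (Dv K v ∩ (A \ {a})).Nonempty → Dv K v ∩ Aᶜ = ∅) ∧
      (crs K A).ncard < (edg K a).ncard

theorem CV_case_a [Fintype α] (K : Subgroup (FreeGroup α)) (hK : K.FG) (P Q : Set (α × Bool))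
    (h1 : ∀ y, y ∈ P ∨ y ∈ Q) (hd : ∀ y, y ∈ P → y ∉ Q)
    (hm : ∀ v, ¬ ((Dv K v ∩ P).Nonempty ∧ (Dv K v ∩ Q).Nonempty))
    (x : α × Bool) (hx : x ∈ P) (hnx : nb x ∈ Q) : CV_concl K := by
  have hPc : Pᶜ = Q := by
    ext y
    constructor
    · intro hy
      exact (h1 y).resolve_left hy
    · intro hy hyP
      exact hd y hyP hy
  by_cases he : edg K x = ∅
  · left
    obtain ⟨s, b⟩ := x
    refine ⟨s, ?_⟩
    cases b
    · have h2 := edg_nb K (s, false)
      rw [he, Set.ncard_empty] at h2
      exact (Set.ncard_eq_zero (edg_finite K hK _)).1 h2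
    · exact he
  · right
    refine ⟨P, x, hx, fun h => hd _ h hnx, ?_, ?_⟩
    · intro v hv
      rw [hPc]
      by_contra h
      rw [← Ne, ← Set.nonempty_iff_ne_empty] at h
      obtain ⟨y, hy1, hy2⟩ := hv
      exact hm v ⟨⟨y, hy1, hy2.1⟩, h⟩
    · have h2 : crs K P = ∅ := by
        ext v
        simp only [Set.mem_empty_iff_false, iff_false]
        rintro ⟨ha, hb⟩
        rw [hPc] at hb
        exact hm v ⟨ha, hb⟩
      rw [h2, Set.ncard_empty]
      exact (Set.ncard_pos (edg_finite K hK _)).2 (Set.nonempty_iff_ne_empty.2 he)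

theorem CV_case_b [Fintype α] (K : Subgroup (FreeGroup α)) (hn : (D K).Nontrivial)
    (P Q : Set (α × Bool)) (h1 : ∀ y, y ∈ P ∨ y ∈ Q) (hd : ∀ y, y ∈ P → y ∉ Q)
    (hQ : Q.Nonempty)
    (hm : ∀ v, ¬ ((Dv K v ∩ P).Nonempty ∧ (Dv K v ∩ Q).Nonempty))
    (hP2 : ∀ y ∈ P, nb y ∈ P) (hQ2 : ∀ y ∈ Q, nb y ∈ Q) (hDP : D K ⊆ P) :
    ∃ s : α, edg K (s, true) = ∅ := by
  obtain ⟨q, hq⟩ := hQ
  refine ⟨q.1, ?_⟩
  apply unused' K hn
  intro k hk
  have hall : ∀ t u : List (α × Bool), k.toWord = t ++ u → ∀ l ∈ t, l ∈ P := by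
    intro t
    induction t using List.reverseRecOn with
    | nil => simp
    | append_singleton t y ih =>
      intro u hu l hl
      rcases List.mem_append.1 hl with h | h
      · exact ih ([y] ++ u) (by rw [hu, List.append_assoc]) l h
      · simp only [List.mem_singleton] at h
        rw [h]
        have h2 : k.toWord = t ++ y :: u := by rw [hu]; simp
        have h3 := (hull_next K hn k hk t u y h2).1
        rcases List.eq_nil_or_concat t with rfl | ⟨t', z, rfl⟩
        · apply hDP
          have : cj K (mk ([] : List (α × Bool))) = K := cj_one K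
          rw [this] at h3
          exact h3
        · rw [List.concat_eq_append] at *
          have hz : z ∈ P := ih ([y] ++ u) (by rw [hu, List.append_assoc]) z (by simp)
          have h4 : k.toWord = t' ++ z :: (y :: u) := by rw [h2]; simp
          have h5 := hull_back K hn k hk t' (y :: u) z h4
          have h6 := hm ((((mk (t' ++ [z]))⁻¹ : FreeGroup α)) : FreeGroup α ⧸ K)
          rw [Dv_coe, inv_inv] at h6
          rcases h1 y with h7 | h7
          · exact h7
          · exact absurd ⟨⟨_, h5, hP2 z hz⟩, ⟨_, h3, h7⟩⟩ h6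
  have hallP := hall k.toWord [] (by simp)
  rw [← mk_toWord (x := k)]
  apply CV_mk_mem_Sm
  intro l hl hls
  have hlP := hallP l hl
  have hlQ : l ∈ Q := by
    by_cases h : l = q
    · rw [h]; exact hq
    · have : l = nb q := by
        obtain ⟨l1, l2⟩ := l
        obtain ⟨q1, q2⟩ := q
        simp only at hls
        subst hls
        cases l2 <;> cases q2 <;> simp_all [nb]
      rw [this]
      exact hQ2 q hq
  exact hd l hlP hlQ

theorem CV_out1 [Fintype α] (K : Subgroup (FreeGroup α)) (hK : K.FG) (hn : (D K).Nontrivial)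
    (P Q : Set (α × Bool)) (h1 : ∀ y, y ∈ P ∨ y ∈ Q) (hd : ∀ y, y ∈ P → y ∉ Q)
    (hP : P.Nonempty) (hQ : Q.Nonempty)
    (hm : ∀ v, ¬ ((Dv K v ∩ P).Nonempty ∧ (Dv K v ∩ Q).Nonempty)) : CV_concl K := by
  by_cases h2 : ∃ x ∈ P, nb x ∈ Q
  · obtain ⟨x, hx, hnx⟩ := h2
    exact CV_case_a K hK P Q h1 hd hm x hx hnx
  · push Not at h2
    have hP2 : ∀ y ∈ P, nb y ∈ P := fun y hy => (h1 _).resolve_right (h2 y hy)
    have hQ2 : ∀ y ∈ Q, nb y ∈ Q := by
      intro y hy
      rcases h1 (nb y) with h | h
      · have := hP2 _ h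
        rw [CV_nb_nb] at this
        exact absurd hy (hd y this)
      · exact h
    have hm1 := hm (((1 : FreeGroup α)) : FreeGroup α ⧸ K)
    rw [Dv_coe, inv_one, cj_one] at hm1
    by_cases h3 : (D K ∩ Q).Nonempty
    · have h4 : D K ⊆ Q := by
        intro y hy
        rcases h1 y with h | h
        · exact absurd ⟨⟨y, hy, h⟩, h3⟩ hm1
        · exact h
      left
      refine CV_case_b K hn Q P (fun y => (h1 y).symm) (fun y hy hy' => hd y hy' hy) hP ?_ hQ2 hP2 h4
      rintro v ⟨ha, hb⟩
      exact hm v ⟨hb, ha⟩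
    · have h4 : D K ⊆ P := by
        intro y hy
        rcases h1 y with h | h
        · exact h
        · exact absurd ⟨y, hy, h⟩ h3
      left
      exact CV_case_b K hn P Q h1 hd hQ hm hP2 hQ2 h4

theorem CV_out2 [Fintype α] (K : Subgroup (FreeGroup α)) (hK : K.FG) (hn : (D K).Nontrivial)
    (P Q : Set (α × Bool)) (a : α × Bool) (haP : a ∉ P) (haQ : a ∉ Q)
    (h1 : ∀ y, y ≠ a → y ∈ P ∨ y ∈ Q) (hd : ∀ y, y ∈ P → y ∉ Q)
    (hP : P.Nonempty)
    (hm : ∀ v, ¬ ((Dv K v ∩ P).Nonempty ∧ (Dv K v ∩ Q).Nonempty)) (hna : nb a ∈ Q) :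
    CV_concl K := by
  by_cases hlt : (crs K (insert a P)).ncard < (edg K a).ncard
  · right
    refine ⟨insert a P, a, Set.mem_insert _ _, ?_, ?_, hlt⟩
    · intro h
      rcases Set.mem_insert_iff.1 h with h | h
      · rw [h] at hna
        exact haQ hna
      · exact hd _ h hna
    · rintro v ⟨y, hy, hyA, hya⟩
      by_contra h
      rw [← Ne, ← Set.nonempty_iff_ne_empty] at h
      obtain ⟨z, hz, hzA⟩ := h
      rw [Set.mem_compl_iff, Set.mem_insert_iff, not_or] at hzA
      have hzQ := (h1 z hzA.1).resolve_left hzA.2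
      have hyP : y ∈ P := (Set.mem_insert_iff.1 hyA).resolve_left hya
      exact hm v ⟨⟨y, hy, hyP⟩, ⟨z, hz, hzQ⟩⟩
  · have hsub : crs K (insert a P) ⊆ edg K a := by
      rintro v ⟨⟨y, hy, hyA⟩, ⟨z, hz, hzA⟩⟩
      rw [Set.mem_compl_iff, Set.mem_insert_iff, not_or] at hzA
      have hzQ := (h1 z hzA.1).resolve_left hzA.2
      have hya : y = a := by
        rcases Set.mem_insert_iff.1 hyA with h | h
        · exact h
        · exact absurd ⟨⟨y, hy, h⟩, ⟨z, hz, hzQ⟩⟩ (hm v)
      rw [hya] at hy
      exact ⟨hy, ⟨a, hy, z, hz, fun h => hzA.1 h.symm⟩⟩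
    have heq : crs K (insert a P) = edg K a :=
      Set.eq_of_subset_of_ncard_le hsub (not_lt.1 hlt) (edg_finite K hK a)
    refine CV_out1 K hK hn P (insert a Q) ?_ ?_ hP ⟨a, Set.mem_insert _ _⟩ ?_
    · intro y
      by_cases h : y = a
      · right; rw [h]; exact Set.mem_insert _ _
      · rcases h1 y h with h2 | h2
        · exact Or.inl h2
        · exact Or.inr (Set.mem_insert_of_mem _ h2)
    · intro y hy hyQ
      rcases Set.mem_insert_iff.1 hyQ with h | h
      · rw [h] at hy
        exact haP hy
      · exact hd y hy h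
    · rintro v ⟨⟨y, hy, hyP⟩, ⟨z, hz, hzQ⟩⟩
      rcases Set.mem_insert_iff.1 hzQ with h | h
      · rw [h] at hz
        have hv : v ∈ edg K a := by
          refine ⟨hz, ⟨a, hz, y, hy, ?_⟩⟩
          intro h2
          rw [h2] at haP
          exact haP hyP
        rw [← heq] at hv
        obtain ⟨w, hw, hwA⟩ := hv.2
        rw [Set.mem_compl_iff, Set.mem_insert_iff, not_or] at hwA
        exact hm v ⟨⟨y, hy, hyP⟩, ⟨w, hw, (h1 w hwA.1).resolve_left hwA.2⟩⟩
      · exact hm v ⟨⟨y, hy, hyP⟩, ⟨z, hz, h⟩⟩

/-- ec:CV the cut vertex lemma -/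
theorem cvl [Fintype α] (K : Subgroup (FreeGroup α)) (hK : K.FG) (hn : (D K).Nontrivial)
    (hp : InPFF K) :
    (∃ s : α, edg K (s, true) = ∅) ∨
    ∃ (A : Set (α × Bool)) (a : α × Bool), a ∈ A ∧ nb a ∉ A ∧
      (∀ v, (Dv K v ∩ (A \ {a})).Nonempty → Dv K v ∩ Aᶜ = ∅) ∧
      (crs K A).ncard < (edg K a).ncard := by
  obtain ⟨P, Q, hd, hP, hQ, hm', h⟩ := CV_partition K hn hp
  have hm : ∀ v, ¬ ((Dv K v ∩ P).Nonempty ∧ (Dv K v ∩ Q).Nonempty) := by
    intro v
    obtain ⟨g, rfl⟩ := QuotientGroup.mk_surjective v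
    rw [Dv_coe]
    exact hm' g⁻¹
  rcases h with h | ⟨a, haP, haQ, h⟩
  · exact CV_out1 K hK hn P Q h hd hP hQ hm
  · have hne : nb a ≠ a := by
      intro h2
      have := congrArg Prod.snd h2
      simp [nb] at this
    rcases h _ hne with h2 | h2
    · refine CV_out2 K hK hn Q P a haQ haP (fun y hy => (h y hy).symm)
        (fun y hy hy' => hd y hy' hy) hQ ?_ h2
      rintro v ⟨ha, hb⟩
      exact hm v ⟨hb, ha⟩
    · exact CV_out2 K hK hn P Q a haP haQ h hd hP hm h2

end CV

end Pool.Agent.helper22.EC
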