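import Pool.Agent.helper26.EC.SpecS

/-!
# Project EC (MP_5628fe_nt), row UPW: upper bound weights (product of block weights and Rosser's weights)
-/

set_option autoImplicit false

namespace Pool.Agent.EC

open Finset ArithmeticFunction
open Pool.Agent.CH (Win)
open Pool.Agent.CHS (PB WLo WUp WTail)
open Pool.Agent.RLS (SS Dat Good)

private theorem UPW_split (Γ P Q : Finset ℕ) (hd : Disjoint P Q) (hΓ : Γ ⊆ P ∪ Q) (f k : Finset ℕ → ℝ) :
    ∑ F ∈ Γ.powerset, f (F ∩ P) * k (F ∩ Q) =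
      (∑ E ∈ (Γ ∩ P).powerset, f E) * ∑ K ∈ (Γ ∩ Q).powerset, k K := by
  rw [Finset.sum_mul_sum, ← Finset.sum_product']
  have hPQ : ∀ x, x ∈ P → x ∈ Q → False := fun x h1 h2 => Finset.disjoint_left.1 hd h1 h2
  refine Finset.sum_nbij' (fun F => (F ∩ P, F ∩ Q)) (fun E => E.1 ∪ E.2) ?_ ?_ ?_ ?_ ?_
  · intro F hF
    rw [Finset.mem_powerset] at hF
    rw [Finset.mem_product, Finset.mem_powerset, Finset.mem_powerset]
    exact ⟨Finset.inter_subset_inter hF (Finset.Subset.refl P),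
      Finset.inter_subset_inter hF (Finset.Subset.refl Q)⟩
  · rintro ⟨E, K⟩ hE
    rw [Finset.mem_product, Finset.mem_powerset, Finset.mem_powerset] at hE
    rw [Finset.mem_powerset]
    exact Finset.union_subset (hE.1.trans Finset.inter_subset_left) (hE.2.trans Finset.inter_subset_left)
  · intro F hF
    rw [Finset.mem_powerset] at hF
    change F ∩ P ∪ F ∩ Q = F
    rw [← Finset.inter_union_distrib_left]
    exact Finset.inter_eq_left.2 (hF.trans hΓ)
  · rintro ⟨E, K⟩ hE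
    rw [Finset.mem_product, Finset.mem_powerset, Finset.mem_powerset] at hE
    have hEP : E ⊆ P := hE.1.trans Finset.inter_subset_right
    have hKQ : K ⊆ Q := hE.2.trans Finset.inter_subset_right
    change ((E ∪ K) ∩ P, (E ∪ K) ∩ Q) = (E, K)
    refine Prod.ext ?_ ?_
    · ext x
      change x ∈ (E ∪ K) ∩ P ↔ x ∈ E
      rw [Finset.mem_inter, Finset.mem_union]
      constructor
      · rintro ⟨h1 | h1, h2⟩
        · exact h1
        · exact (hPQ x h2 (hKQ h1)).elim
      · intro h1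
        exact ⟨Or.inl h1, hEP h1⟩
    · ext x
      change x ∈ (E ∪ K) ∩ Q ↔ x ∈ K
      rw [Finset.mem_inter, Finset.mem_union]
      constructor
      · rintro ⟨h1 | h1, h2⟩
        · exact (hPQ x (hEP h1) h2).elim
        · exact h1
      · intro h1
        exact ⟨Or.inr h1, hKQ h1⟩
  · intro F _
    rfl

theorem UPW (h1 : Pool.Agent.CHS.PA_stmt) (h2 : Pool.Agent.RLS.LA_stmt) (h3 : Pool.Agent.RLS.SI_stmt)
    (h4 : Pool.Agent.RLS.CT_stmt) (h5 : EXV_stmt) : UPW_stmt := by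
  obtain ⟨pa1, pa2, pa3, pa4⟩ := h1
  obtain ⟨_, _, _, la4⟩ := h2
  intro x h Z Ld m₀ δ hx hxh hhZ hZL hδ hW
  obtain ⟨c, hc1, hc2, hc3, hc4⟩ := hW
  obtain ⟨hPB, hdis, _, _⟩ := pa2 x h Z hxh hhZ
  have hLd : 0 ≤ Ld := by linarith
  have h2h : 2 ≤ h := hx.trans hxh
  have hsplit : ∀ F : Finset ℕ, F ⊆ PB x h ∪ PB h Z → ∀ v : ℕ → ℝ,
      ∑ p ∈ F, v p = ∑ p ∈ F ∩ PB x h, v p + ∑ p ∈ F ∩ PB h Z, v p := by
    intro F hF v
    rw [← Finset.sum_union, ← Finset.inter_union_distrib_left, Finset.inter_eq_left.2 hF]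
    exact Finset.disjoint_of_subset_left Finset.inter_subset_right
      (Finset.disjoint_of_subset_right Finset.inter_subset_right hdis)
  have hsplitg : ∀ F : Finset ℕ, F ⊆ PB x h ∪ PB h Z →
      CHS.g F = CHS.g (F ∩ PB x h) * CHS.g (F ∩ PB h Z) := by
    intro F hF
    unfold CHS.g
    rw [← Finset.prod_union, ← Finset.inter_union_distrib_left, Finset.inter_eq_left.2 hF]
    exact Finset.disjoint_of_subset_left Finset.inter_subset_right
      (Finset.disjoint_of_subset_right Finset.inter_subset_right hdis)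
  refine ⟨fun F => if F ⊆ PB x h ∪ PB h Z then c (F ∩ PB x h) * RLS.lam true Ld (F ∩ PB h Z) else 0,
    ?_, ?_, ?_, ?_⟩
  · intro F
    change |if F ⊆ PB x h ∪ PB h Z then c (F ∩ PB x h) * RLS.lam true Ld (F ∩ PB h Z) else 0| ≤ 1
    split_ifs
    · rw [abs_mul]
      exact mul_le_one₀ (hc1 _) (abs_nonneg _) (la4 _ _ _)
    · rw [abs_zero]
      exact zero_le_one
  · intro F hF
    change (if F ⊆ PB x h ∪ PB h Z then c (F ∩ PB x h) * RLS.lam true Ld (F ∩ PB h Z) else 0) ≠ 0 at hF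
    by_cases hsub : F ⊆ PB x h ∪ PB h Z
    · rw [if_pos hsub] at hF
      have hcn : c (F ∩ PB x h) ≠ 0 := left_ne_zero_of_mul hF
      have hln : RLS.lam true Ld (F ∩ PB h Z) ≠ 0 := right_ne_zero_of_mul hF
      refine ⟨by rw [hPB]; exact hsub, ?_⟩
      rw [hsplit F hsub]
      have e1 := (hc2 _ hcn).2
      have hp8 : ∀ p ∈ F ∩ PB h Z, 8 ≤ p := fun p hp =>
        ((pa3 h Z h2h).2.2.2 p (Finset.mem_inter.1 hp).2).1
      obtain ⟨K₁, hK, hK1, hK2⟩ := h4 true Ld Ld 0 (F ∩ PB h Z)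
        (fun p hp => le_trans (by norm_num) (hp8 p hp)) hln
        (fun hb => by cases hb) hLd le_rfl (add_zero Ld)
      have e2 : ∑ p ∈ F ∩ PB h Z, Real.log p = ∑ p ∈ (F ∩ PB h Z) \ K₁, Real.log p + ∑ p ∈ K₁, Real.log p :=
        (Finset.sum_sdiff hK).symm
      rw [e2]
      linarith
    · rw [if_neg hsub] at hF
      exact absurd rfl hF
  · intro Γ hΓ
    rw [hPB] at hΓ
    have e1 : ∑ F ∈ Γ.powerset, (fun F => if F ⊆ PB x h ∪ PB h Z then
        c (F ∩ PB x h) * RLS.lam true Ld (F ∩ PB h Z) else 0) F =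
        (∑ E ∈ (Γ ∩ PB x h).powerset, c E) * ∑ K ∈ (Γ ∩ PB h Z).powerset, RLS.lam true Ld K := by
      rw [← UPW_split Γ (PB x h) (PB h Z) hdis hΓ c (RLS.lam true Ld)]
      refine Finset.sum_congr rfl fun F hF => ?_
      rw [Finset.mem_powerset] at hF
      exact if_pos (hF.trans hΓ)
    rw [e1]
    have hS := hc3 (Γ ∩ PB x h) Finset.inter_subset_right
    have hR0 := (h3 Ld (Γ ∩ PB h Z)).1
    have hR1 := (h3 Ld (Γ ∩ PB h Z)).2.1
    by_cases hΓe : Γ = ∅
    · rw [if_pos hΓe]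
      have g1 : Γ ∩ PB x h = ∅ := by rw [hΓe, Finset.empty_inter]
      have g2 : Γ ∩ PB h Z = ∅ := by rw [hΓe, Finset.empty_inter]
      rw [if_pos g1] at hS
      have hR := hR1 g2
      calc (1 : ℝ) = 1 * 1 := (one_mul 1).symm
        _ ≤ _ := mul_le_mul hS hR zero_le_one (zero_le_one.trans hS)
    · rw [if_neg hΓe]
      have hS0 : 0 ≤ ∑ E ∈ (Γ ∩ PB x h).powerset, c E := by
        refine le_trans ?_ hS
        split_ifs
        · exact zero_le_one
        · exact le_rfl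
      exact mul_nonneg hS0 hR0
  · have hSS : 0 ≤ SS true gg Ld (PB h Z) := by
      have := (h5 (PB h Z) gg (RLS.lam true Ld) (fun p hp => by
        have h6 := (pa3 h Z h2h).2.2.2 p hp
        refine ⟨h6.2.1.le, ?_⟩
        change 1 / ((p : ℝ) - 1) ≤ 1
        linarith [h6.2.2])).2 (fun Γ _ => (h3 Ld Γ).1)
      exact this
    rw [hPB]
    have e1 : ∑ F ∈ (PB x h ∪ PB h Z).powerset, (fun F => if F ⊆ PB x h ∪ PB h Z then
        c (F ∩ PB x h) * RLS.lam true Ld (F ∩ PB h Z) else 0) F * CHS.g F =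
        (∑ E ∈ (PB x h).powerset, c E * CHS.g E) * SS true gg Ld (PB h Z) := by
      have e2 := UPW_split (PB x h ∪ PB h Z) (PB x h) (PB h Z) hdis (Finset.Subset.refl _)
        (fun E => c E * CHS.g E) (fun K => RLS.lam true Ld K * CHS.g K)
      have e3 : (PB x h ∪ PB h Z) ∩ PB x h = PB x h :=
        Finset.inter_eq_right.2 Finset.subset_union_left
      have e4 : (PB x h ∪ PB h Z) ∩ PB h Z = PB h Z :=
        Finset.inter_eq_right.2 Finset.subset_union_right
      rw [e3, e4] at e2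
      have e5 : SS true gg Ld (PB h Z) = ∑ K ∈ (PB h Z).powerset, RLS.lam true Ld K * CHS.g K := rfl
      rw [e5, ← e2]
      refine Finset.sum_congr rfl fun F hF => ?_
      rw [Finset.mem_powerset] at hF
      change (if F ⊆ PB x h ∪ PB h Z then
        c (F ∩ PB x h) * RLS.lam true Ld (F ∩ PB h Z) else 0) * CHS.g F = _
      rw [if_pos hF, hsplitg F hF]
      ring
    rw [e1]
    exact mul_le_mul_of_nonneg_right hc4 hSS

end Pool.Agent.EC
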